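import Pool.Agent.Helper2.AV.PDefs

/-!
Linked Lie algebras of operators: linking of dimensions and gradings, trace forms, words and
graphs.
-/

set_option linter.unusedSectionVars false
set_option linter.unusedVariables false

open Module

namespace AV

open MTP

namespace LK

section wordl
variable {K : Type*} [Field K] {R : Type*} [Ring R] [Algebra K R] {L : Submodule K R}

lemma pow_comm_mem (hbr : ∀ x ∈ L, ∀ y ∈ L, x * y - y * x ∈ L) (n : ℕ) {w y : R}
    (hw : w ∈ L ^ n) (hy : y ∈ L) : w * y - y * w ∈ L ^ n := by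
  induction n generalizing w with
  | zero =>
    rw [pow_zero, Submodule.mem_one] at hw
    obtain ⟨c, rfl⟩ := hw
    rw [Algebra.commutes, sub_self]
    exact Submodule.zero_mem _
  | succ n ih =>
    rw [pow_succ] at hw
    induction hw using Submodule.mul_induction_on' with
    | mem_mul_mem a ha b hb =>
      have e : a * b * y - y * (a * b) = a * (b * y - y * b) + (a * y - y * a) * b := by
        noncomm_ring
      rw [e, pow_succ]
      exact Submodule.add_mem _ (Submodule.mul_mem_mul ha (hbr b hb y hy))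
        (Submodule.mul_mem_mul (ih ha) hb)
    | add a _ b _ ha hb =>
      have e : (a + b) * y - y * (a + b) = (a * y - y * a) + (b * y - y * b) := by
        noncomm_ring
      rw [e]
      exact Submodule.add_mem _ ha hb

/-- The word lemma. -/
lemma word (hbr : ∀ x ∈ L, ∀ y ∈ L, x * y - y * x ∈ L) {q : R} (hq : q * q = q)
    (hz : ∀ z ∈ L, ∃ y ∈ L, q * y = 0 ∧ ∃ c : K, z * q = y * q + c • q) (n : ℕ) {w : R}
    (hw : w ∈ L ^ n) : ∃ c : K, q * w * q = c • q := by
  induction n generalizing w with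
  | zero =>
    rw [pow_zero, Submodule.mem_one] at hw
    obtain ⟨c, rfl⟩ := hw
    refine ⟨c, ?_⟩
    rw [Algebra.algebraMap_eq_smul_one, mul_smul_comm, smul_mul_assoc, mul_one, hq]
  | succ n ih =>
    rw [pow_succ] at hw
    induction hw using Submodule.mul_induction_on' with
    | mem_mul_mem a ha z hzL =>
      obtain ⟨y, hy, hEy, k, hk⟩ := hz z hzL
      obtain ⟨c1, hc1⟩ := ih (pow_comm_mem hbr n ha hy)
      obtain ⟨c2, hc2⟩ := ih ha
      refine ⟨c1 + k * c2, ?_⟩
      calc q * (a * z) * q = q * a * (z * q) := by noncomm_ring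
        _ = q * (a * y - y * a) * q + (q * y) * a * q + k • (q * a * q) := by
            rw [hk, mul_add, mul_smul_comm]; noncomm_ring
        _ = _ := by
            rw [hc1, hEy, hc2]
            simp only [zero_mul, add_zero]
            module
    | add a _ b _ ha hb =>
      obtain ⟨c1, hc1⟩ := ha
      obtain ⟨c2, hc2⟩ := hb
      exact ⟨c1 + c2, by rw [mul_add, add_mul, hc1, hc2, add_smul]⟩

/-- The decomposition in degrees `-1`, `0`, `1`. -/
lemma grad [CharZero K] {h : R} (hh : h * h * h = h) (hL : ∀ z ∈ L, h * z - z * h ∈ L)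
    (h3 : ∀ z ∈ L, h * (h * (h * z - z * h) - (h * z - z * h) * h) -
      (h * (h * z - z * h) - (h * z - z * h) * h) * h = h * z - z * h) {q : R}
    (hq : q = (2 : K)⁻¹ • (h * h + h))
    (hc : ∀ z ∈ L, h * z = z * h → ∃ c : K, q * z * q = c • q) :
    q * q = q ∧ ∀ z ∈ L, ∃ y ∈ L, q * y = 0 ∧ ∃ c : K, z * q = y * q + c • q := by
  have hhq : h * q = q := by
    rw [hq, mul_smul_comm, mul_add, ← mul_assoc, hh, add_comm]
  have hqh : q * h = q := by
    rw [hq, smul_mul_assoc, add_mul, hh, add_comm]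
  have hqq : q * q = q := by
    calc q * q = ((2 : K)⁻¹ • (h * h + h)) * q := by rw [← hq]
      _ = q := by
        rw [smul_mul_assoc, add_mul, mul_assoc, hhq, hhq, ← two_smul K, smul_smul,
          inv_mul_cancel₀ two_ne_zero, one_smul]
  have h2 : ∀ a : R, h * a = (2 : K) • a → a = 0 := by
    intro a ha
    have e1 : h * h * h * a = (8 : K) • a := by
      calc h * h * h * a = h * (h * (h * a)) := by noncomm_ring
        _ = _ := by
          rw [ha, mul_smul_comm, ha, smul_smul, mul_smul_comm, ha, smul_smul]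
          norm_num
    rw [hh, ha] at e1
    have e2 : (6 : K) • a = 0 := by
      have : (6 : K) • a = (8 : K) • a - (2 : K) • a := by module
      rw [this, ← e1, sub_self]
    exact (smul_eq_zero.mp e2).resolve_left (by norm_num)
  have h2' : ∀ a : R, a * h = (2 : K) • a → a = 0 := by
    intro a ha
    have e1 : a * (h * h * h) = (8 : K) • a := by
      calc a * (h * h * h) = ((a * h) * h) * h := by noncomm_ring
        _ = _ := by
          rw [ha, smul_mul_assoc, ha, smul_smul, smul_mul_assoc, ha, smul_smul]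
          norm_num
    rw [hh, ha] at e1
    have e2 : (6 : K) • a = 0 := by
      have : (6 : K) • a = (8 : K) • a - (2 : K) • a := by module
      rw [this, ← e1, sub_self]
    exact (smul_eq_zero.mp e2).resolve_left (by norm_num)
  refine ⟨hqq, ?_⟩
  intro z hz
  set d1 := h * z - z * h with hd1
  set d2 := h * d1 - d1 * h with hd2
  have hd1L : d1 ∈ L := hL z hz
  have hd2L : d2 ∈ L := hL d1 hd1L
  have h3z : h * d2 - d2 * h = d1 := h3 z hz
  have hm : (2 : K)⁻¹ • (d2 - d1) ∈ L := L.smul_mem _ (L.sub_mem hd2L hd1L)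
  have h0 : z - d2 ∈ L := L.sub_mem hz hd2L
  have hcomm : h * (z - d2) = (z - d2) * h := by
    have : h * (z - d2) - (z - d2) * h = (h * z - z * h) - (h * d2 - d2 * h) := by noncomm_ring
    rw [← sub_eq_zero, this, h3z, ← hd1, sub_self]
  obtain ⟨c, hc'⟩ := hc _ h0 hcomm
  refine ⟨(2 : K)⁻¹ • (d2 - d1), hm, ?_, c, ?_⟩
  · apply h2'
    have e : h * (d2 - d1) - (d2 - d1) * h = -(d2 - d1) := by
      have : h * (d2 - d1) - (d2 - d1) * h = (h * d2 - d2 * h) - (h * d1 - d1 * h) := by
        noncomm_ring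
      rw [this, h3z, ← hd2]; abel
    have e2 : q * h * (d2 - d1) - q * ((d2 - d1) * h) = -(q * (d2 - d1)) := by
      calc q * h * (d2 - d1) - q * ((d2 - d1) * h) = q * (h * (d2 - d1) - (d2 - d1) * h) := by
            noncomm_ring
        _ = _ := by rw [e]; noncomm_ring
    rw [hqh] at e2
    have e3 : q * ((d2 - d1) * h) = (2 : K) • (q * (d2 - d1)) := by
      rw [two_smul]
      have : q * ((d2 - d1) * h) = q * (d2 - d1) - (q * (d2 - d1) - q * ((d2 - d1) * h)) := by
        abel
      rw [this, e2]; abel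
    rw [mul_smul_comm, smul_mul_assoc, mul_assoc, e3, smul_smul, smul_smul, mul_comm]
  · have e0 : (z - d2) * q = c • q := by
      have : (z - d2) * q = q * (z - d2) * q := by
        have e5 : q * (z - d2) = (z - d2) * q := by
          have e6 : h * h * (z - d2) = (z - d2) * (h * h) := by
            rw [mul_assoc, hcomm, ← mul_assoc, hcomm, mul_assoc]
          rw [hq, smul_mul_assoc, mul_smul_comm, add_mul, mul_add, hcomm, e6]
        rw [e5, mul_assoc, hqq]
      rw [this, hc']
    have ep : ((2 : K)⁻¹ • (d2 + d1)) * q = 0 := by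
      apply h2
      have e : h * (d2 + d1) - (d2 + d1) * h = d2 + d1 := by
        have : h * (d2 + d1) - (d2 + d1) * h = (h * d2 - d2 * h) + (h * d1 - d1 * h) := by
          noncomm_ring
        rw [this, h3z, ← hd2]; abel
      have e2 : h * ((d2 + d1) * q) - (d2 + d1) * (h * q) = (d2 + d1) * q := by
        calc h * ((d2 + d1) * q) - (d2 + d1) * (h * q) =
            (h * (d2 + d1) - (d2 + d1) * h) * q := by noncomm_ring
          _ = _ := by rw [e]
      rw [hhq] at e2
      have e3 : h * ((d2 + d1) * q) = (2 : K) • ((d2 + d1) * q) := by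
        rw [two_smul]
        have : h * ((d2 + d1) * q) = (h * ((d2 + d1) * q) - (d2 + d1) * q) + (d2 + d1) * q := by
          abel
        rw [this, e2]
      rw [smul_mul_assoc, mul_smul_comm, e3, smul_smul, smul_smul, mul_comm]
    have ez : z = (2 : K)⁻¹ • (d2 - d1) + (z - d2) + (2 : K)⁻¹ • (d2 + d1) := by
      have : (2 : K)⁻¹ • (d2 - d1) + (z - d2) + (2 : K)⁻¹ • (d2 + d1) =
          z + ((2 : K)⁻¹ * 2 - 1) • d2 := by module
      rw [this, inv_mul_cancel₀ two_ne_zero, sub_self, zero_smul, add_zero]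
    conv_lhs => rw [ez]
    rw [add_mul, add_mul, ep, e0, add_zero]

end wordl

section pairs
variable {K : Type*} [Field K] {W₁ W₂ : Type*} [AddCommGroup W₁] [Module K W₁]
  [AddCommGroup W₂] [Module K W₂]
  {L : Submodule K (Module.End K W₁ × Module.End K W₂)}
  {M₁ : Submodule K (Module.End K W₁)} {M₂ : Submodule K (Module.End K W₂)}

lemma ex1 (h1 : On1 L M₁) {z : Module.End K W₁} (hz : z ∈ M₁) : ∃ x ∈ L, x.1 = z := by
  have h : z ∈ L.map (LinearMap.fst K _ _) := by rw [h1]; exact hz
  obtain ⟨x, hx, rfl⟩ := h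
  exact ⟨x, hx, rfl⟩

lemma ex2 (h2 : On2 L M₂) {z : Module.End K W₂} (hz : z ∈ M₂) : ∃ x ∈ L, x.2 = z := by
  have h : z ∈ L.map (LinearMap.snd K _ _) := by rw [h2]; exact hz
  obtain ⟨x, hx, rfl⟩ := h
  exact ⟨x, hx, rfl⟩

lemma mem1 (h1 : On1 L M₁) {x : Module.End K W₁ × Module.End K W₂} (hx : x ∈ L) : x.1 ∈ M₁ := by
  rw [← h1]; exact ⟨x, hx, rfl⟩

lemma mem2 (h2 : On2 L M₂) {x : Module.End K W₁ × Module.End K W₂} (hx : x ∈ L) : x.2 ∈ M₂ := by
  rw [← h2]; exact ⟨x, hx, rfl⟩

/-- Linked gradings. -/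
lemma grd (hL : Lk L) (h2 : On2 L M₂) {x : Module.End K W₁ × Module.End K W₂} (hx : x ∈ L)
    (hg : ∀ z ∈ L, x.1 * (x.1 * (x.1 * z.1 - z.1 * x.1) - (x.1 * z.1 - z.1 * x.1) * x.1) -
      (x.1 * (x.1 * z.1 - z.1 * x.1) - (x.1 * z.1 - z.1 * x.1) * x.1) * x.1 =
        x.1 * z.1 - z.1 * x.1) : Grd M₂ x.2 := by
  intro w hw
  obtain ⟨z, hz, rfl⟩ := ex2 h2 hw
  have hD : ∀ a ∈ L, x * a - a * x ∈ L := fun a ha => hL.br x hx a ha
  have h := hL.k1 ((x * (x * (x * z - z * x) - (x * z - z * x) * x) -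
    (x * (x * z - z * x) - (x * z - z * x) * x) * x) - (x * z - z * x))
    (L.sub_mem (hD _ (hD _ (hD z hz))) (hD z hz)) (sub_eq_zero.mpr (hg z hz))
  exact sub_eq_zero.mp h

lemma grd' (hL : Lk L) (h1 : On1 L M₁) {x : Module.End K W₁ × Module.End K W₂} (hx : x ∈ L)
    (hg : ∀ z ∈ L, x.2 * (x.2 * (x.2 * z.2 - z.2 * x.2) - (x.2 * z.2 - z.2 * x.2) * x.2) -
      (x.2 * (x.2 * z.2 - z.2 * x.2) - (x.2 * z.2 - z.2 * x.2) * x.2) * x.2 =
        x.2 * z.2 - z.2 * x.2) : Grd M₁ x.1 := by
  intro w hw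
  obtain ⟨z, hz, rfl⟩ := ex1 h1 hw
  have hD : ∀ a ∈ L, x * a - a * x ∈ L := fun a ha => hL.br x hx a ha
  have h := hL.k2 ((x * (x * (x * z - z * x) - (x * z - z * x) * x) -
    (x * (x * z - z * x) - (x * z - z * x) * x) * x) - (x * z - z * x))
    (L.sub_mem (hD _ (hD _ (hD z hz))) (hD z hz)) (sub_eq_zero.mpr (hg z hz))
  exact sub_eq_zero.mp h

/-- Gradings are linked. -/
lemma grd_iff (hL : Lk L) (h1 : On1 L M₁) (h2 : On2 L M₂)
    {x : Module.End K W₁ × Module.End K W₂} (hx : x ∈ L) : Grd M₁ x.1 ↔ Grd M₂ x.2 :=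
  ⟨fun h => grd hL h2 hx fun z hz => h _ (mem1 h1 hz),
    fun h => grd' hL h1 hx fun z hz => h _ (mem2 h2 hz)⟩

/-- The cube identity for an idempotent up to scalars. -/
lemma idem_cube {W : Type*} [AddCommGroup W] [Module K W] {P : Module.End K W} (hP : P * P = P)
    (c : K) (z : Module.End K W) :
    (P - c • 1) * ((P - c • 1) * ((P - c • 1) * z - z * (P - c • 1)) -
      ((P - c • 1) * z - z * (P - c • 1)) * (P - c • 1)) -
      ((P - c • 1) * ((P - c • 1) * z - z * (P - c • 1)) -
      ((P - c • 1) * z - z * (P - c • 1)) * (P - c • 1)) * (P - c • 1) =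
        (P - c • 1) * z - z * (P - c • 1) := by
  have hb : ∀ a : Module.End K W, (P - c • 1) * a - a * (P - c • 1) = P * a - a * P := by
    intro a
    rw [sub_mul, mul_sub, smul_mul_assoc, mul_smul_comm, one_mul, mul_one]; abel
  rw [hb, hb, hb]
  have e1 : P * (P * (P * z - z * P) - (P * z - z * P) * P) -
      (P * (P * z - z * P) - (P * z - z * P) * P) * P =
      (P * P) * (P * z) - (P * P) * z * P - (P * P) * z * P - (P * P) * z * P
        + P * z * (P * P) + P * z * (P * P) + P * z * (P * P) - z * P * (P * P) := by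
    noncomm_ring
  rw [e1, hP]
  have e2 : P * (P * z) = P * z := by rw [← mul_assoc, hP]
  have e3 : z * P * P = z * P := by rw [mul_assoc, hP]
  rw [e2, e3]
  abel

variable [FiniteDimensional K W₁] [FiniteDimensional K W₂]

/-- Linked submodules have the same dimension. -/
lemma finrank_map_eq (hL : Lk L) {M : Submodule K (Module.End K W₁ × Module.End K W₂)}
    (hM : M ≤ L) : finrank K (M.map (LinearMap.fst K _ _)) =
      finrank K (M.map (LinearMap.snd K _ _)) := by
  have e1 : finrank K (M.map (LinearMap.fst K (Module.End K W₁) (Module.End K W₂))) =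
      finrank K M := by
    have hr : M.map (LinearMap.fst K (Module.End K W₁) (Module.End K W₂)) =
        LinearMap.range ((LinearMap.fst K (Module.End K W₁) (Module.End K W₂)) ∘ₗ M.subtype) := by
      rw [LinearMap.range_comp, Submodule.range_subtype]
    rw [hr]
    apply LinearMap.finrank_range_of_inj
    rw [injective_iff_map_eq_zero]
    rintro ⟨x, hx⟩ h
    have h' : x.1 = 0 := h
    have h'' := hL.k1 x (hM hx) h'
    exact Subtype.ext (Prod.ext h' h'')
  have e2 : finrank K (M.map (LinearMap.snd K (Module.End K W₁) (Module.End K W₂))) =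
      finrank K M := by
    have hr : M.map (LinearMap.snd K (Module.End K W₁) (Module.End K W₂)) =
        LinearMap.range ((LinearMap.snd K (Module.End K W₁) (Module.End K W₂)) ∘ₗ M.subtype) := by
      rw [LinearMap.range_comp, Submodule.range_subtype]
    rw [hr]
    apply LinearMap.finrank_range_of_inj
    rw [injective_iff_map_eq_zero]
    rintro ⟨x, hx⟩ h
    have h' : x.2 = 0 := h
    have h'' := hL.k2 x (hM hx) h'
    exact Subtype.ext (Prod.ext h'' h')
  rw [e1, e2]

lemma finrank_eq (hL : Lk L) (h1 : On1 L M₁) (h2 : On2 L M₂) : finrank K M₁ = finrank K M₂ := by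
  have h := finrank_map_eq hL (le_refl L)
  unfold On1 at h1
  unfold On2 at h2
  rwa [h1, h2] at h

/-- The parts of degree one are linked. -/
lemma gone_eq (hL : Lk L) (h1 : On1 L M₁) (h2 : On2 L M₂)
    {x : Module.End K W₁ × Module.End K W₂} (hx : x ∈ L) :
    finrank K (Gone M₁ x.1) = finrank K (Gone M₂ x.2) := by
  let M : Submodule K (Module.End K W₁ × Module.End K W₂) :=
    { carrier := {z | z ∈ L ∧ x * z - z * x = z}
      add_mem' := by
        rintro a b ⟨ha, ha'⟩ ⟨hb, hb'⟩
        refine ⟨L.add_mem ha hb, ?_⟩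
        rw [mul_add, add_mul, add_sub_add_comm, ha', hb']
      zero_mem' := ⟨L.zero_mem, by simp⟩
      smul_mem' := by
        rintro c a ⟨ha, ha'⟩
        refine ⟨L.smul_mem c ha, ?_⟩
        rw [mul_smul_comm, smul_mul_assoc, ← smul_sub, ha'] }
  have hM : M ≤ L := fun z hz => hz.1
  have e1 : M.map (LinearMap.fst K _ _) = Gone M₁ x.1 := by
    ext w
    constructor
    · rintro ⟨z, ⟨hz, hz'⟩, rfl⟩
      exact ⟨mem1 h1 hz, congrArg Prod.fst hz'⟩
    · rintro ⟨hw, hw'⟩
      obtain ⟨z, hz, rfl⟩ := ex1 h1 hw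
      refine ⟨z, ⟨hz, ?_⟩, rfl⟩
      have h := hL.k1 ((x * z - z * x) - z) (L.sub_mem (hL.br x hx z hz) hz)
        (sub_eq_zero.mpr hw')
      exact Prod.ext hw' (sub_eq_zero.mp h)
  have e2 : M.map (LinearMap.snd K _ _) = Gone M₂ x.2 := by
    ext w
    constructor
    · rintro ⟨z, ⟨hz, hz'⟩, rfl⟩
      exact ⟨mem2 h2 hz, congrArg Prod.snd hz'⟩
    · rintro ⟨hw, hw'⟩
      obtain ⟨z, hz, rfl⟩ := ex2 h2 hw
      refine ⟨z, ⟨hz, ?_⟩, rfl⟩
      have h := hL.k2 ((x * z - z * x) - z) (L.sub_mem (hL.br x hx z hz) hz)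
        (sub_eq_zero.mpr hw')
      exact Prod.ext (sub_eq_zero.mp h) hw'
  rw [← e1, ← e2]
  exact finrank_map_eq hL hM

end pairs

end LK

end AV
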