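import Pool.Agent.Helper27.AV.P1
import Pool.Agent.Helper9.AV.LK

/-!
The orthogonal Lie algebra in dimension four; parity of ranks.
-/

set_option linter.unusedSectionVars false
set_option linter.unusedVariables false

open Module

namespace AV

open MTP

namespace SO4

section ideal
variable {K : Type*} [Field K] [CharZero K] {R : Type*} [Ring R] [Algebra K R]

/-- The ideal generated by the elements of degree one and minus one. -/
lemma ideal {L : Submodule K R} (hL : ∀ x ∈ L, ∀ y ∈ L, x * y - y * x ∈ L) {h y1 y2 : R}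
    (hh : h ∈ L) (h1L : y1 ∈ L) (h2L : y2 ∈ L)
    (hc : ∀ z ∈ L, h * (h * (h * z - z * h) - (h * z - z * h) * h) -
      (h * (h * z - z * h) - (h * z - z * h) * h) * h = h * z - z * h)
    (h1 : h * y1 - y1 * h = y1) (h2 : h * y2 - y2 * h = -y2)
    (u1 : ∀ z ∈ L, h * z - z * h = z → ∃ c : K, z = c • y1)
    (u2 : ∀ z ∈ L, h * z - z * h = -z → ∃ c : K, z = c • y2) {z : R} (hz : z ∈ L) {y : R}
    (hy : y ∈ Submodule.span K {y1, y2, y1 * y2 - y2 * y1}) :
    z * y - y * z ∈ Submodule.span K {y1, y2, y1 * y2 - y2 * y1} := by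
  set M := Submodule.span K {y1, y2, y1 * y2 - y2 * y1} with hM
  have m1 : y1 ∈ M := Submodule.subset_span (by simp)
  have m2 : y2 ∈ M := Submodule.subset_span (by simp)
  have m3 : y1 * y2 - y2 * y1 ∈ M := Submodule.subset_span (by simp)
  have h3L : y1 * y2 - y2 * y1 ∈ L := hL _ h1L _ h2L
  -- degrees add
  have dg : ∀ a b : R, h * (a * b - b * a) - (a * b - b * a) * h =
      ((h * a - a * h) * b - b * (h * a - a * h)) + (a * (h * b - b * h) - (h * b - b * h) * a) := by
    intro a b; noncomm_ring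
  have key : ∀ z ∈ L, ∀ w ∈ ({y1, y2, y1 * y2 - y2 * y1} : Set R), z * w - w * z ∈ M := by
    -- degree zero part
    have k0 : ∀ z ∈ L, h * z - z * h = 0 → ∀ w ∈ ({y1, y2, y1 * y2 - y2 * y1} : Set R),
        z * w - w * z ∈ M := by
      intro z hz hz0 w hw
      obtain ⟨c1, hc1⟩ := u1 (z * y1 - y1 * z) (hL _ hz _ h1L) (by
        rw [dg, hz0, h1]; simp)
      obtain ⟨c2, hc2⟩ := u2 (z * y2 - y2 * z) (hL _ hz _ h2L) (by
        rw [dg, hz0, h2]; noncomm_ring)
      rcases hw with rfl | rfl | rfl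
      · rw [hc1]; exact M.smul_mem _ m1
      · rw [hc2]; exact M.smul_mem _ m2
      · have e : z * (y1 * y2 - y2 * y1) - (y1 * y2 - y2 * y1) * z =
            ((z * y1 - y1 * z) * y2 - y2 * (z * y1 - y1 * z)) +
            (y1 * (z * y2 - y2 * z) - (z * y2 - y2 * z) * y1) := by noncomm_ring
        rw [e, hc1, hc2, smul_mul_assoc, mul_smul_comm, smul_mul_assoc, mul_smul_comm, ← smul_sub,
          ← smul_sub]
        exact M.add_mem (M.smul_mem _ m3) (M.smul_mem _ m3)
    have k1 : ∀ w ∈ ({y1, y2, y1 * y2 - y2 * y1} : Set R), y1 * w - w * y1 ∈ M := by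
      intro w hw
      rcases hw with rfl | rfl | rfl
      · rw [sub_self]; exact M.zero_mem
      · exact m3
      · obtain ⟨c, hc⟩ := u1 (y1 * (y1 * y2 - y2 * y1) - (y1 * y2 - y2 * y1) * y1)
          (hL _ h1L _ h3L) (by
          rw [dg, dg, h1, h2]; noncomm_ring)
        rw [hc]; exact M.smul_mem _ m1
    have k2 : ∀ w ∈ ({y1, y2, y1 * y2 - y2 * y1} : Set R), y2 * w - w * y2 ∈ M := by
      intro w hw
      rcases hw with rfl | rfl | rfl
      · rw [← neg_sub]; exact M.neg_mem m3
      · rw [sub_self]; exact M.zero_mem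
      · obtain ⟨c, hc⟩ := u2 (y2 * (y1 * y2 - y2 * y1) - (y1 * y2 - y2 * y1) * y2)
          (hL _ h2L _ h3L) (by
          rw [dg, dg, h1, h2]; noncomm_ring)
        rw [hc]; exact M.smul_mem _ m2
    intro z hz w hw
    set d1 := h * z - z * h with hd1
    set d2 := h * d1 - d1 * h with hd2
    have hd1L : d1 ∈ L := hL _ hh _ hz
    have hd2L : d2 ∈ L := hL _ hh _ hd1L
    have h3z : h * d2 - d2 * h = d1 := hc z hz
    obtain ⟨a, ha⟩ := u1 ((2 : K)⁻¹ • (d2 + d1)) (L.smul_mem _ (L.add_mem hd2L hd1L)) (by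
      rw [mul_smul_comm, smul_mul_assoc, ← smul_sub]
      congr 1
      have : h * (d2 + d1) - (d2 + d1) * h = (h * d2 - d2 * h) + (h * d1 - d1 * h) := by
        noncomm_ring
      rw [this, h3z, ← hd2]; abel)
    obtain ⟨c, hc'⟩ := u2 ((2 : K)⁻¹ • (d2 - d1)) (L.smul_mem _ (L.sub_mem hd2L hd1L)) (by
      rw [mul_smul_comm, smul_mul_assoc, ← smul_sub, ← smul_neg]
      congr 1
      have : h * (d2 - d1) - (d2 - d1) * h = (h * d2 - d2 * h) - (h * d1 - d1 * h) := by
        noncomm_ring
      rw [this, h3z, ← hd2]; abel)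
    have h0 := k0 (z - d2) (L.sub_mem hz hd2L) (by
      have : h * (z - d2) - (z - d2) * h = (h * z - z * h) - (h * d2 - d2 * h) := by noncomm_ring
      rw [this, h3z, ← hd1, sub_self]) w hw
    have ez : z = (2 : K)⁻¹ • (d2 - d1) + (z - d2) + (2 : K)⁻¹ • (d2 + d1) := by
      have : (2 : K)⁻¹ • (d2 - d1) + (z - d2) + (2 : K)⁻¹ • (d2 + d1) =
          z + ((2 : K)⁻¹ * 2 - 1) • d2 := by module
      rw [this, inv_mul_cancel₀ two_ne_zero, sub_self, zero_smul, add_zero]
    have e : z * w - w * z = c • (y2 * w - w * y2) + ((z - d2) * w - w * (z - d2)) +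
        a • (y1 * w - w * y1) := by
      conv_lhs => rw [ez, ha, hc']
      simp only [add_mul, mul_add, smul_mul_assoc, mul_smul_comm, smul_sub]
      abel
    rw [e]
    exact M.add_mem (M.add_mem (M.smul_mem _ (k2 w hw)) h0) (M.smul_mem _ (k1 w hw))
  induction hy using Submodule.span_induction with
  | mem w hw => exact key z hz w hw
  | zero => simp
  | add a b _ _ ha hb =>
    have : z * (a + b) - (a + b) * z = (z * a - a * z) + (z * b - b * z) := by noncomm_ring
    rw [this]; exact M.add_mem ha hb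
  | smul c a _ ha =>
    rw [mul_smul_comm, smul_mul_assoc, ← smul_sub]
    exact M.smul_mem _ ha

end ideal

section even
variable {K : Type*} [Field K] {V : Type*} [AddCommGroup V] [Module K V] [FiniteDimensional K V]
  {ω : LinearMap.BilinForm K V}

/-- An operator `z` for which `ω u (z v)` is alternating has even rank. -/
lemma even_rk [CharZero K] (hω : ω.Nondegenerate) {z : Module.End K V}
    (hz : ∀ u v, ω u (z v) = - ω v (z u)) : Even (rk z) := by
  classical
  obtain ⟨W, hW⟩ := Submodule.exists_isCompl (LinearMap.ker z)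
  have hdim : rk z = finrank K W := by
    have h1 := LinearMap.finrank_range_add_finrank_ker z
    have h2 := Submodule.finrank_add_eq_of_isCompl hW
    unfold rk
    omega
  rw [hdim]
  set n := finrank K W with hn
  let b : Basis (Fin n) K W := Module.finBasis K W
  let A : Matrix (Fin n) (Fin n) K := Matrix.of fun i j => ω (b i : V) (z (b j : V))
  have hA : A.transpose = -A := by
    ext i j
    change ω (b j : V) (z (b i : V)) = -ω (b i : V) (z (b j : V))
    exact hz _ _
  have hdet : A.det ≠ 0 := by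
    intro h0
    obtain ⟨c, hc0, hc⟩ := Matrix.exists_mulVec_eq_zero_iff.mpr h0
    apply hc0
    set w : W := ∑ j, c j • b j with hw
    have h1 : ∀ i, ω (b i : V) (z (w : V)) = 0 := by
      intro i
      have h2 := congrFun hc i
      simp only [Matrix.mulVec, dotProduct, Pi.zero_apply] at h2
      rw [← h2, hw]
      simp only [A, Matrix.of_apply, Submodule.coe_sum, Submodule.coe_smul, map_sum, map_smul,
        smul_eq_mul]
      exact Finset.sum_congr rfl (fun j _ => mul_comm _ _)
    have h2 : ∀ u ∈ W, ω u (z (w : V)) = 0 := by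
      intro u hu
      have h3 := b.sum_repr ⟨u, hu⟩
      have h4 : u = ∑ i, b.repr ⟨u, hu⟩ i • (b i : V) := by
        have := congrArg Subtype.val h3
        simp only [Submodule.coe_sum, Submodule.coe_smul] at this
        exact this.symm
      rw [h4, map_sum, LinearMap.sum_apply]
      apply Finset.sum_eq_zero
      intro i _
      rw [map_smul, LinearMap.smul_apply, h1, smul_zero]
    have h3 : z (w : V) = 0 := by
      apply hω.2
      intro v
      have hv : v ∈ LinearMap.ker z ⊔ W := by rw [hW.sup_eq_top]; trivial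
      obtain ⟨k, hk, u, hu, rfl⟩ := Submodule.mem_sup.mp hv
      rw [map_add, LinearMap.add_apply, h2 u hu, add_zero, hz, LinearMap.mem_ker.mp hk, map_zero,
        neg_zero]
    have h4 : (w : V) = 0 := by
      have : (w : V) ∈ LinearMap.ker z ⊓ W := ⟨LinearMap.mem_ker.mpr h3, w.2⟩
      rw [hW.inf_eq_bot] at this
      exact (Submodule.mem_bot K).mp this
    have h5 : w = 0 := Subtype.ext h4
    have h6 := b.linearIndependent
    rw [Fintype.linearIndependent_iff] at h6
    funext i
    exact h6 c h5 i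
  have h1 : A.det = (-1) ^ n * A.det := by
    conv_lhs => rw [← Matrix.det_transpose, hA, Matrix.det_neg, Fintype.card_fin]
  by_contra hodd
  rw [Nat.not_even_iff_odd] at hodd
  rw [hodd.neg_one_pow, neg_one_mul] at h1
  exact hdet (self_eq_neg.mp h1)

end even

end SO4

section main
variable {K : Type*} [Field K] {W : Type*} [AddCommGroup W] [Module K W]
variable [IsAlgClosed K] [CharZero K] [FiniteDimensional K W] {b : LinearMap.BilinForm K W}

/-- Skew operators have even rank. -/
theorem rk_even (hb : b.Nondegenerate) (ha : ∀ v w, b v w = b w v) {x : Module.End K W}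
    (hx : IsSk b x) : Even (MTP.rk x) :=
  SO4.even_rk hb fun u v => by rw [ha v, hx u v, neg_neg]

/-- The orthogonal Lie algebra in dimension four is not simple. -/
theorem so_four (hb : b.Nondegenerate) (ha : ∀ v w, b v w = b w v) (hd : finrank K W = 4)
    {P : Module.End K W} (hP : P * P = P) (hs : IsSk b (P - (2 : K)⁻¹ • 1)) :
    ∃ M ≤ skw b, (∀ x ∈ skw b, ∀ y ∈ M, x * y - y * x ∈ M) ∧ M ≠ ⊥ ∧ M ≠ skw b := by
  have hL : ∀ x ∈ skw b, ∀ y ∈ skw b, x * y - y * x ∈ skw b := by
    intro x hx y hy v w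
    rw [LinearMap.sub_apply, LinearMap.sub_apply, map_sub, map_sub, LinearMap.sub_apply,
      Module.End.mul_apply, Module.End.mul_apply, Module.End.mul_apply, Module.End.mul_apply,
      hx, hy, hy, hx]
    ring
  have hP' : (1 - P) * (1 - P) = 1 - P := by
    rw [mul_sub, sub_mul, sub_mul, hP]; simp
  have hs' : IsSk b ((1 - P) - (2 : K)⁻¹ • 1) := by
    have e : (1 - P) - (2 : K)⁻¹ • 1 = -(P - (2 : K)⁻¹ • 1) := by
      have : (1 - P) - (2 : K)⁻¹ • 1 = -(P - (2 : K)⁻¹ • 1) + (1 - (2 : K) * (2 : K)⁻¹) • 1 := by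
        module
      rw [this, mul_inv_cancel₀ two_ne_zero, sub_self, zero_smul, add_zero]
    rw [e]
    exact (skw b).neg_mem hs
  obtain ⟨hr, hg⟩ := dim_so_one hb ha hP hs
  obtain ⟨hr', hg'⟩ := dim_so_one hb ha hP' hs'
  have r2 : rk P = 2 := by omega
  have r2' : rk (1 - P) = 2 := by omega
  rw [r2] at hg
  rw [r2'] at hg'
  have g1 : finrank K (Gone (skw b) (P - (2 : K)⁻¹ • 1)) = 1 := by omega
  have g2 : finrank K (Gone (skw b) ((1 - P) - (2 : K)⁻¹ • 1)) = 1 := by omega
  obtain ⟨⟨y1, hy1L, hy1⟩, hy10, hu1⟩ := finrank_eq_one_iff'.mp g1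
  obtain ⟨⟨y2, hy2L, hy2⟩, hy20, hu2⟩ := finrank_eq_one_iff'.mp g2
  set h := P - (2 : K)⁻¹ • 1 with hh
  have hneg : ∀ z : Module.End K W, ((1 - P) - (2 : K)⁻¹ • 1) * z -
      z * ((1 - P) - (2 : K)⁻¹ • 1) = -(h * z - z * h) := by
    intro z
    rw [hh]
    simp only [sub_mul, mul_sub, smul_mul_assoc, mul_smul_comm, one_mul, mul_one]
    abel
  have hy2' : h * y2 - y2 * h = -y2 := by
    rw [hneg] at hy2
    rw [← hy2, neg_neg, hy2]
  have hid := fun z hz y hy => SO4.ideal (K := K) (L := skw b) hL (h := h) (y1 := y1) (y2 := y2)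
    hs hy1L hy2L (fun z _ => LK.idem_cube hP _ z) hy1 hy2'
    (fun z hz hz1 => by
      obtain ⟨c, hc⟩ := hu1 ⟨z, hz, hz1⟩
      exact ⟨c, (congrArg Subtype.val hc).symm⟩)
    (fun z hz hz1 => by
      obtain ⟨c, hc⟩ := hu2 ⟨z, hz, by rw [hneg, hz1, neg_neg]⟩
      exact ⟨c, (congrArg Subtype.val hc).symm⟩) (z := z) hz (y := y) hy
  refine ⟨Submodule.span K {y1, y2, y1 * y2 - y2 * y1}, ?_, hid, ?_, ?_⟩
  · rw [Submodule.span_le]
    intro z hz
    rcases hz with rfl | rfl | rfl
    · exact hy1L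
    · exact hy2L
    · exact hL _ hy1L _ hy2L
  · intro hbot
    have h1 : y1 ∈ Submodule.span K {y1, y2, y1 * y2 - y2 * y1} :=
      Submodule.subset_span (by simp)
    rw [hbot, Submodule.mem_bot] at h1
    exact hy10 (Subtype.ext h1)
  · intro heq
    have d := dim_so hb ha
    rw [← heq, hd] at d
    classical
    have h1 := finrank_span_finset_le_card (R := K) ({y1, y2, y1 * y2 - y2 * y1} : Finset _)
    have h2 := Finset.card_le_three (a := y1) (b := y2) (c := y1 * y2 - y2 * y1)
    rw [Finset.coe_insert, Finset.coe_insert, Finset.coe_singleton] at h1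
    unfold Set.finrank at h1
    omega

end main

end AV
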