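import Pool.Agent.Helper9.AV.UU
import Pool.Agent.Helper50.AV.P2b

/-!
Linked orthogonal Lie algebras.
-/

set_option linter.unusedSectionVars false
set_option linter.unusedVariables false
set_option linter.unusedSimpArgs false

open Module

namespace AV

open MTP

namespace P3

section so
variable {K : Type*} [Field K] {W : Type*} [AddCommGroup W] [Module K W]
  {b : LinearMap.BilinForm K W}

/-- The skew operators of rank two. -/
noncomputable def ww (b : LinearMap.BilinForm K W) (e f : W) : Module.End K W :=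
  (b f).smulRight e - (b e).smulRight f

lemma ww_apply (e f v : W) : ww b e f v = b f v • e - b e v • f := rfl

lemma ww_sk (ha : ∀ v w, b v w = b w v) (e f : W) : IsSk b (ww b e f) := by
  intro v w
  rw [ww_apply, ww_apply, map_sub, map_sub, map_smul, map_smul, LinearMap.sub_apply,
    LinearMap.smul_apply, LinearMap.smul_apply, map_smul, map_smul, smul_eq_mul, smul_eq_mul,
    smul_eq_mul, smul_eq_mul, ha v e, ha v f]
  ring

variable [FiniteDimensional K W]

lemma so_ge (hb : b.Nondegenerate) (ha : ∀ v w, b v w = b w v) {U : Submodule K W}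
    (hU : ∀ x ∈ skw b, ∀ v ∈ U, x v ∈ U) (h : U ≠ ⊥) : finrank K W ≤ finrank K U + 1 := by
  obtain ⟨w, hw, hw0⟩ := Submodule.exists_mem_ne_zero_of_ne_bot h
  obtain ⟨c, hc⟩ : ∃ c, b c w ≠ 0 := by
    by_contra hcon
    push Not at hcon
    exact hw0 (hb.2 w hcon)
  have h1 : b.orthogonal (Submodule.span K {w}) ≤ U := by
    intro a hao
    rw [LinearMap.BilinForm.mem_orthogonal_iff] at hao
    have h2 : b w a = 0 := hao w (Submodule.mem_span_singleton_self w)
    have h3 := hU (ww b a c) (ww_sk ha a c) w hw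
    rw [ww_apply, ha a w, h2, zero_smul, sub_zero] at h3
    have h4 := U.smul_mem (b c w)⁻¹ h3
    rwa [smul_smul, inv_mul_cancel₀ hc, one_smul] at h4
  have h2 := Submodule.finrank_mono h1
  rw [LinearMap.BilinForm.finrank_orthogonal hb, finrank_span_singleton hw0] at h2
  omega

/-- The orthogonal Lie algebra is irreducible. -/
lemma so_irr (hb : b.Nondegenerate) (ha : ∀ v w, b v w = b w v) (hd : 3 ≤ finrank K W)
    {U : Submodule K W} (hU : ∀ x ∈ skw b, ∀ v ∈ U, x v ∈ U) : U = ⊥ ∨ U = ⊤ := by
  by_cases h : U = ⊥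
  · left; exact h
  right
  have h1 := so_ge hb ha hU h
  have h2 := LinearMap.BilinForm.finrank_orthogonal hb U
  have h3 : b.orthogonal U = ⊥ := by
    by_contra hcon
    have h4 := so_ge hb ha (U := b.orthogonal U) (by
      intro x hx v hv
      rw [LinearMap.BilinForm.mem_orthogonal_iff] at hv ⊢
      intro u hu
      have h5 := hv (x u) (hU x hx u hu)
      change b (x u) v = 0 at h5
      change b u (x v) = 0
      rw [hx u v] at h5
      exact neg_eq_zero.mp h5) hcon
    omega
  rw [h3, finrank_bot] at h2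
  apply Submodule.eq_top_of_finrank_eq
  have h4 : finrank K U ≤ finrank K W := Submodule.finrank_le _
  omega

lemma rk_smulRight {φ : Module.Dual K W} (hφ : φ ≠ 0) {e : W} (he : e ≠ 0) :
    rk (φ.smulRight e : Module.End K W) = 1 := by
  obtain ⟨v, hv⟩ : ∃ v, φ v ≠ 0 := by
    by_contra hcon
    push Not at hcon
    exact hφ (LinearMap.ext hcon)
  have hr : LinearMap.range (φ.smulRight e : Module.End K W) = Submodule.span K {e} := by
    apply le_antisymm
    · rintro _ ⟨w, rfl⟩
      rw [LinearMap.smulRight_apply]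
      exact Submodule.smul_mem _ _ (Submodule.mem_span_singleton_self e)
    · rw [Submodule.span_singleton_le_iff_mem]
      exact ⟨(φ v)⁻¹ • v, by
        rw [LinearMap.smulRight_apply, map_smul, smul_eq_mul, inv_mul_cancel₀ hv, one_smul]⟩
  unfold rk
  rw [hr, finrank_span_singleton he]

/-- A hyperbolic pair. -/
lemma exists_hyp [IsAlgClosed K] [CharZero K] (hb : b.Nondegenerate)
    (ha : ∀ v w, b v w = b w v) (hd : 2 ≤ finrank K W) :
    ∃ e f : W, b e e = 0 ∧ b f f = 0 ∧ b e f = 1 := by
  have hN : Nontrivial W := by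
    rw [← Module.finrank_pos_iff (R := K)]; omega
  obtain ⟨e, he0, he⟩ : ∃ e : W, e ≠ 0 ∧ b e e = 0 := by
    obtain ⟨w, hw⟩ := exists_ne (0 : W)
    by_cases hww : b w w = 0
    · exact ⟨w, hw, hww⟩
    obtain ⟨v, hv⟩ : ∃ v, v ∉ Submodule.span K {w} := by
      by_contra hcon
      push Not at hcon
      have h1 : Submodule.span K {w} = ⊤ := by
        rw [eq_top_iff]; exact fun v _ => hcon v
      have h2 := finrank_span_singleton (K := K) hw
      rw [h1, finrank_top] at h2
      omega
    obtain ⟨s, hs⟩ := IsAlgClosed.exists_eq_mul_self (discrim (b w w) (2 * b v w) (b v v))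
    obtain ⟨t, ht⟩ := exists_quadratic_eq_zero hww ⟨s, hs⟩
    refine ⟨v + t • w, ?_, ?_⟩
    · intro h
      apply hv
      rw [Submodule.mem_span_singleton]
      refine ⟨-t, ?_⟩
      rw [neg_smul, eq_comm, ← add_eq_zero_iff_eq_neg]
      exact h
    · simp only [map_add, map_smul, LinearMap.add_apply, LinearMap.smul_apply, smul_eq_mul]
      rw [ha w v]
      linear_combination ht
  obtain ⟨g, hg⟩ : ∃ g, b e g ≠ 0 := by
    by_contra hcon
    push Not at hcon
    exact he0 (hb.1 e hcon)
  obtain ⟨f, hef⟩ : ∃ f, b e f = 1 :=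
    ⟨(b e g)⁻¹ • g, by rw [map_smul, smul_eq_mul, inv_mul_cancel₀ hg]⟩
  refine ⟨e, f - ((2 : K)⁻¹ * b f f) • e, he, ?_, ?_⟩
  · have h2 : (2 : K) ≠ 0 := two_ne_zero
    simp only [map_sub, map_smul, LinearMap.sub_apply, LinearMap.smul_apply, smul_eq_mul, he,
      ha f e, hef]
    field_simp
    ring
  · rw [map_sub, map_smul, he, hef, smul_zero, sub_zero]

/-- Skew operators have trace zero. -/
lemma sk_trace [CharZero K] (hb : b.Nondegenerate) {y : Module.End K W} (hy : IsSk b y) :
    LinearMap.trace K W y = 0 := by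
  have h : P1.dag hb y = -y := by
    apply P1.eq_of_form hb
    intro v w
    rw [P1.dag_apply, LinearMap.neg_apply, map_neg, LinearMap.neg_apply, hy v w, neg_neg]
  have h2 := dag_trace hb y
  rw [h, map_neg] at h2
  have h3 : (2 : K) * LinearMap.trace K W y = 0 := by linear_combination -h2
  exact (mul_eq_zero.mp h3).resolve_left two_ne_zero

/-- Elements of vector type: the cube identity. -/
lemma vec_cube {R : Type*} [Ring R] {h z : R} (hh : h * h * h = h)
    (hz : h * h * z * h = h * z * h * h) :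
    h * (h * (h * z - z * h) - (h * z - z * h) * h) -
      (h * (h * z - z * h) - (h * z - z * h) * h) * h = h * z - z * h := by
  have e : h * (h * (h * z - z * h) - (h * z - z * h) * h) -
      (h * (h * z - z * h) - (h * z - z * h) * h) * h =
      (h * h * h) * z - z * (h * h * h) - (h * h * z * h + h * h * z * h + h * h * z * h)
        + (h * z * h * h + h * z * h * h + h * z * h * h) := by noncomm_ring
  rw [e, hz, hh]
  abel

lemma vec_trace [CharZero K] (hb : b.Nondegenerate) {y z : Module.End K W} (hy : IsSk b y)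
    (hz : IsSk b z) (hyz : y * z = z * y) :
    LinearMap.trace K W (((2 : K)⁻¹ • (y * y + y)) * z) =
      (2 : K)⁻¹ * LinearMap.trace K W (y * z) := by
  have h3 : IsSk b (y * y * z) := by
    intro v w
    have h4 : y * y * z = z * y * y := by
      rw [mul_assoc, hyz, ← mul_assoc, hyz]
    conv_rhs => rw [h4]
    rw [Module.End.mul_apply, Module.End.mul_apply, hy, hy, hz, Module.End.mul_apply,
      Module.End.mul_apply]
    ring
  rw [smul_mul_assoc, add_mul, map_smul, map_add, sk_trace hb h3, zero_add, smul_eq_mul]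

/-- Elements of vector type: the trace of the square and the projection. -/
lemma vec_rk [CharZero K] (hb : b.Nondegenerate) {h : Module.End K W} (hs : IsSk b h)
    (hh : h * h * h = h) (hr : rk h = 2) :
    LinearMap.trace K W (h * h) = 2 ∧
      ((2 : K)⁻¹ • (h * h + h)) * ((2 : K)⁻¹ • (h * h + h)) = (2 : K)⁻¹ • (h * h + h) ∧
      rk ((2 : K)⁻¹ • (h * h + h)) = 1 := by
  have h4 : h * h * (h * h) = h * h := by
    calc h * h * (h * h) = (h * h * h) * h := by noncomm_ring
      _ = _ := by rw [hh]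
  have hr2 : rk (h * h) = 2 := by
    apply le_antisymm
    · rw [← hr]; exact rk_mul_le_left _ _
    · have h5 := rk_mul_le_left (h * h) h
      rw [hh, hr] at h5
      exact h5
  have ht : LinearMap.trace K W (h * h) = 2 := by
    rw [LK.trace_idem h4, hr2]; norm_num
  have hq : ((2 : K)⁻¹ • (h * h + h)) * ((2 : K)⁻¹ • (h * h + h)) =
      (2 : K)⁻¹ • (h * h + h) := by
    rw [smul_mul_assoc, mul_smul_comm, smul_smul]
    have h5 : (h * h + h) * (h * h + h) = (2 : K) • (h * h + h) := by
      have h6 : (h * h + h) * (h * h + h) = h * h * (h * h) + h * h * h + h * h * h + h * h := by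
        noncomm_ring
      rw [h6, h4, hh, two_smul]
      abel
    rw [h5, smul_smul]
    congr 1
    norm_num
  refine ⟨ht, hq, ?_⟩
  have h7 := LK.trace_idem hq
  rw [map_smul, map_add, ht, sk_trace hb hs, add_zero, smul_eq_mul,
    inv_mul_cancel₀ two_ne_zero] at h7
  exact_mod_cast h7.symm

end so

section oo
variable {K : Type*} [Field K] [IsAlgClosed K] [CharZero K] {W : Type*} [AddCommGroup W]
  [Module K W] [FiniteDimensional K W] {b : LinearMap.BilinForm K W}

/-- An element of vector type. -/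
lemma exists_vec (hb : b.Nondegenerate) (ha : ∀ v w, b v w = b w v) (hd : 2 ≤ finrank K W) :
    ∃ h : Module.End K W, IsSk b h ∧ h * h * h = h ∧ rk h = 2 ∧
      ∀ z, IsSk b z → h * h * z * h = h * z * h * h := by
  obtain ⟨e, f, he, hf, hef⟩ := exists_hyp hb ha hd
  have hfe : b f e = 1 := by rw [ha, hef]
  set h := ww b e f with hh
  have h1 : h e = e := by
    rw [hh, ww_apply, hfe, he, one_smul, zero_smul, sub_zero]
  have h2 : h f = -f := by
    rw [hh, ww_apply, hf, hef, one_smul, zero_smul, zero_sub]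
  have hv : ∀ v, h v = b f v • e - b e v • f := fun v => rfl
  have hhv : ∀ v, h (h v) = b f v • e + b e v • f := by
    intro v
    rw [hv v, map_sub, map_smul, map_smul, h1, h2]
    module
  refine ⟨h, ww_sk ha e f, ?_, ?_, ?_⟩
  · ext v
    rw [Module.End.mul_apply, Module.End.mul_apply, hhv (h v), hv v]
    simp only [map_sub, map_smul, smul_eq_mul, hfe, hf, he, hef, mul_one, mul_zero, sub_zero,
      zero_sub]
    module
  · have e1 : h = (b f).smulRight e + -((b e).smulRight f) := by
      rw [hh]; exact sub_eq_add_neg _ _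
    have hbf : b f ≠ 0 := by
      intro h0
      rw [h0, LinearMap.zero_apply] at hfe
      exact zero_ne_one hfe
    have hbe : b e ≠ 0 := by
      intro h0
      rw [h0, LinearMap.zero_apply] at hef
      exact zero_ne_one hef
    have he0 : e ≠ 0 := by
      intro h0; rw [h0, map_zero] at hbe; exact hbe rfl
    have hf0 : f ≠ 0 := by
      intro h0; rw [h0, map_zero] at hbf; exact hbf rfl
    rw [e1, rk_add (p := ((b f).smulRight e : Module.End K W))
      (q := ((b f).smulRight e : Module.End K W)), rk_neg, rk_smulRight hbf he0,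
      rk_smulRight hbe hf0]
    · ext v
      simp only [Module.End.mul_apply, LinearMap.smulRight_apply, map_smul, smul_eq_mul, hfe,
        mul_one, one_smul]
    · ext v
      simp only [Module.End.mul_apply, LinearMap.smulRight_apply, LinearMap.neg_apply, map_neg,
        map_smul, smul_eq_mul, hf, mul_zero, neg_zero, zero_smul, smul_zero,
        LinearMap.zero_apply]
    · ext v
      simp only [Module.End.mul_apply, LinearMap.smulRight_apply, map_smul, smul_eq_mul, hfe,
        mul_one, one_smul]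
    · ext v
      simp only [Module.End.mul_apply, LinearMap.smulRight_apply, LinearMap.neg_apply, map_neg,
        map_smul, smul_eq_mul, he, mul_zero, neg_zero, zero_smul, smul_zero,
        LinearMap.zero_apply]
  · intro z hz
    have hze : b e (z e) = 0 := by
      have h3 := hz e e
      rw [ha] at h3
      have h4 : (2 : K) * b e (z e) = 0 := by linear_combination h3
      exact (mul_eq_zero.mp h4).resolve_left two_ne_zero
    have hzf : b f (z f) = 0 := by
      have h3 := hz f f
      rw [ha] at h3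
      have h4 : (2 : K) * b f (z f) = 0 := by linear_combination h3
      exact (mul_eq_zero.mp h4).resolve_left two_ne_zero
    have hzz : b e (z f) = -b f (z e) := by
      have h3 := hz f e
      have h4 := ha (z f) e
      linear_combination h3 - h4
    have key : h * z * h = (b f (z e)) • h := by
      ext v
      rw [Module.End.mul_apply, Module.End.mul_apply, LinearMap.smul_apply, hv v, map_sub,
        map_smul, map_smul, map_sub, map_smul, map_smul, hv (z e), hv (z f), hze, hzf, hzz]
      module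
    calc h * h * z * h = h * (h * z * h) := by noncomm_ring
      _ = (b f (z e)) • (h * h) := by rw [key, mul_smul_comm]
      _ = (h * z * h) * h := by rw [key, smul_mul_assoc]

end oo

end P3

section oo
variable {K : Type*} [Field K] [IsAlgClosed K] [CharZero K] {W₁ W₂ : Type*} [AddCommGroup W₁]
  [Module K W₁] [FiniteDimensional K W₁] [AddCommGroup W₂] [Module K W₂]
  [FiniteDimensional K W₂] {L : Submodule K (Module.End K W₁ × Module.End K W₂)}
  {b₁ : LinearMap.BilinForm K W₁} {b₂ : LinearMap.BilinForm K W₂}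

theorem pair_OO (hL : Lk L) (hb1 : b₁.Nondegenerate) (ha1 : ∀ v w, b₁ v w = b₁ w v)
    (hb2 : b₂.Nondegenerate) (ha2 : ∀ v w, b₂ v w = b₂ w v) (h1 : On1 L (skw b₁))
    (h2 : On2 L (skw b₂)) (he : Even (finrank K W₁)) (hd : finrank K W₁ = 6 ∨ 10 ≤ finrank K W₁)
    (he2 : Even (finrank K W₂)) (hd2 : finrank K W₂ = 6 ∨ 10 ≤ finrank K W₂) :
    ∃ f : W₁ →ₗ[K] W₂, f ≠ 0 ∧ ∀ x ∈ L, ∀ v, f (x.1 v) = x.2 (f v) := by
  have s1 : ∀ z ∈ L, IsSk b₁ z.1 := fun z hz => LK.mem1 h1 hz
  have s2 : ∀ z ∈ L, IsSk b₂ z.2 := fun z hz => LK.mem2 h2 hz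
  have d1 := dim_so hb1 ha1
  have d2 := dim_so hb2 ha2
  have hdd : finrank K W₁ = finrank K W₂ := by
    rw [LK.finrank_eq hL h1 h2] at d1
    have h3 : (finrank K W₁ : ℤ) * finrank K W₁ - finrank K W₁ =
        (finrank K W₂ : ℤ) * finrank K W₂ - finrank K W₂ := by
      have e1 : (2 * finrank K (skw b₂) + finrank K W₁ : ℤ) = finrank K W₁ * finrank K W₁ := by
        exact_mod_cast d1
      have e2 : (2 * finrank K (skw b₂) + finrank K W₂ : ℤ) = finrank K W₂ * finrank K W₂ := by
        exact_mod_cast d2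
      linear_combination e2 - e1
    have h4 : ((finrank K W₁ : ℤ) - finrank K W₂) * ((finrank K W₁ : ℤ) + finrank K W₂ - 1) = 0 := by
      linear_combination h3
    rcases mul_eq_zero.mp h4 with h | h
    · omega
    · omega
  obtain ⟨h, hs, hh, hr, hz⟩ := P3.exists_vec hb1 ha1 (by omega)
  obtain ⟨x, hx, hx1⟩ := LK.ex1 h1 hs
  have hx1' : x.1 ≠ 0 := by
    rw [hx1, ← rk_pos, hr]; exact two_pos
  have hx2' : x.2 ≠ 0 := fun h0 => hx1' (hL.k2 x hx h0)
  have hg : Grd (skw b₂) x.2 := LK.grd hL h2 hx fun z hzL => by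
    rw [hx1]; exact P3.vec_cube hh (hz z.1 (s1 z hzL))
  have hgo := LK.gone_eq hL h1 h2 hx
  have hgv := dim_so_vec hb1 ha1 hs hh hr
  rw [← hx1, hgo] at hgv
  obtain ⟨hh2, hr2⟩ : x.2 * x.2 * x.2 = x.2 ∧ rk x.2 = 2 := by
    rcases grd_so hb2 ha2 (by omega) (s2 x hx) hx2' hg with ⟨P, hP, hxP⟩ | h3
    · exfalso
      have hsP : IsSk b₂ (P - (2 : K)⁻¹ • 1) := by rw [← hxP]; exact s2 x hx
      obtain ⟨h4, h5⟩ := dim_so_one hb2 ha2 hP hsP
      rw [hxP] at hgv
      generalize finrank K (Gone (skw b₂) (P - (2 : K)⁻¹ • 1)) = g at *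
      generalize rk P = k at *
      have h6 : ((k : ℤ) - 1) * ((k : ℤ) - 4) = 0 := by
        have e1 : (2 * g + k : ℤ) = k * k := by exact_mod_cast h5
        have e2 : (g + 2 : ℤ) = 2 * k := by
          have : g + 2 = 2 * k := by omega
          exact_mod_cast this
        linear_combination -e1 + 2 * e2
      rcases mul_eq_zero.mp h6 with h7 | h7
      · omega
      · omega
    · exact h3
  have t1 := P3.vec_rk hb1 (s1 x hx) (by rw [hx1]; exact hh) (by rw [hx1]; exact hr)
  have t2 := P3.vec_rk hb2 (s2 x hx) hh2 hr2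
  obtain ⟨κ, hκ⟩ := LK.trf hL hx (by rw [t1.1]; exact two_ne_zero)
  have hκ1 : κ = 1 := by
    have h3 := hκ x hx x hx
    rw [t1.1, t2.1] at h3
    have h4 : (2 : K) * (κ - 1) = 0 := by linear_combination -h3
    have h5 := (mul_eq_zero.mp h4).resolve_left two_ne_zero
    linear_combination h5
  have hxx : x * x * x = x := Prod.ext (by
    change x.1 * x.1 * x.1 = x.1
    rw [hx1]; exact hh) hh2
  refine LK.exists_tw (h := x) (q := (2 : K)⁻¹ • (x * x + x))
    (fun U hU => P3.so_irr hb1 ha1 (by omega) (fun y hy v hv => ?_))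
    (fun U hU => P3.so_irr hb2 ha2 (by omega) (fun y hy v hv => ?_)) hL.br
    hxx (fun z hzL => hL.br x hx z hzL) ?_ rfl ?_ ?_ ?_
  · obtain ⟨z, hz, rfl⟩ := LK.ex1 h1 hy
    exact hU z hz v hv
  · obtain ⟨z, hz, rfl⟩ := LK.ex2 h2 hy
    exact hU z hz v hv
  · intro z hzL
    refine Prod.ext ?_ (hg z.2 (LK.mem2 h2 hzL))
    have h3 := P3.vec_cube hh (hz z.1 (s1 z hzL))
    rw [← hx1] at h3
    exact h3
  · change (2 : K)⁻¹ • (x.1 * x.1 + x.1) ≠ 0
    rw [← rk_pos, t1.2.2]; exact one_pos
  · change (2 : K)⁻¹ • (x.2 * x.2 + x.2) ≠ 0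
    rw [← rk_pos, t2.2.2]; exact one_pos
  · intro z hzL hxz
    have e1 := LK.sandwich t1.2.1 t1.2.2 z.1
    have e2 := LK.sandwich t2.2.1 t2.2.2 z.2
    rw [P3.vec_trace hb1 (s1 x hx) (s1 z hzL) (congrArg Prod.fst hxz)] at e1
    rw [P3.vec_trace hb2 (s2 x hx) (s2 z hzL) (congrArg Prod.snd hxz), hκ x hx z hzL, hκ1, one_mul] at e2
    exact ⟨_, Prod.ext e1 e2⟩

end oo

end AV
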