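import Pool.Agent.Helper9.AV.GL
import Pool.Agent.Helper27.AV.P1
import Pool.Agent.Helper50.AV.P2

/-!
Linked special linear Lie algebras.
-/

set_option linter.unusedSectionVars false
set_option linter.unusedVariables false

open Module

namespace AV

open MTP

namespace P3

section sl
variable {K : Type*} [Field K] {W : Type*} [AddCommGroup W] [Module K W]

lemma mem_slw {x : Module.End K W} : x ∈ slw K W ↔ LinearMap.trace K W x = 0 := Iff.rfl

lemma exists_form (K W : Type*) [Field K] [AddCommGroup W] [Module K W]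
    [FiniteDimensional K W] : ∃ b : LinearMap.BilinForm K W, b.Nondegenerate := by
  let B := finBasis K W
  refine ⟨B.toDual, ?_, ?_⟩
  · intro v hv
    exact B.toDual_inj v (LinearMap.ext hv)
  · intro w hw
    apply (Module.forall_dual_apply_eq_zero_iff K w).mp
    intro φ
    have h := hw (B.toDualEquiv.symm φ)
    rw [← Basis.toDualEquiv_apply, LinearEquiv.apply_symm_apply] at h
    exact h

section dag
variable [FiniteDimensional K W] {b : LinearMap.BilinForm K W} (hb : b.Nondegenerate)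

lemma dag_inj {x : Module.End K W} (h : P1.dag hb x = 0) : x = 0 := by
  refine LinearMap.ext fun w => ?_
  rw [LinearMap.zero_apply]
  apply hb.2
  intro v
  rw [← P1.dag_apply hb, h, LinearMap.zero_apply, map_zero, LinearMap.zero_apply]

lemma dag_surj : Function.Surjective (P1.dag hb) := by
  have h3 : Function.Injective (P1.dag hb) := by
    rw [injective_iff_map_eq_zero]; exact fun x => dag_inj hb
  exact LinearMap.injective_iff_surjective.mp h3

lemma dag_mul (x y : Module.End K W) : P1.dag hb (x * y) = P1.dag hb y * P1.dag hb x := by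
  apply P1.eq_of_form hb
  intro v w
  rw [P1.dag_apply, Module.End.mul_apply, Module.End.mul_apply, P1.dag_apply, P1.dag_apply]

lemma dag_one : P1.dag hb 1 = 1 := by
  apply P1.eq_of_form hb
  intro v w
  rw [P1.dag_apply, Module.End.one_apply, Module.End.one_apply]

lemma dag_trace (x : Module.End K W) :
    LinearMap.trace K W (P1.dag hb x) = LinearMap.trace K W x := by
  have h : P1.dag hb x = (b.toDual hb).symm.conj (Module.Dual.transpose (R := K) x) := by
    apply P1.eq_of_form hb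
    intro v w
    rw [P1.dag_apply, LinearEquiv.conj_apply, LinearMap.comp_apply, LinearMap.comp_apply,
      LinearEquiv.coe_coe, LinearEquiv.coe_coe, LinearMap.BilinForm.apply_toDual_symm_apply]
    rfl
  rw [h, LinearMap.trace_conj', LinearMap.trace_transpose']

lemma dag_rk (x : Module.End K W) : rk (P1.dag hb x) = rk x :=
  rk_adjoint hb (P1.dag_apply hb x)

end dag

/-- The special linear Lie algebra is irreducible. -/
lemma sl_irr {U : Submodule K W} (hU : ∀ x ∈ slw K W, ∀ v ∈ U, x v ∈ U) : U = ⊥ ∨ U = ⊤ := by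
  by_cases h : U = ⊥
  · left; exact h
  right
  obtain ⟨w, hw, hw0⟩ := Submodule.exists_mem_ne_zero_of_ne_bot h
  rw [eq_top_iff]
  intro v _
  by_cases hv : w ∈ Submodule.span K {v}
  · obtain ⟨c, rfl⟩ := Submodule.mem_span_singleton.mp hv
    have hc : c ≠ 0 := by
      rintro rfl; exact hw0 (zero_smul _ _)
    have h2 := U.smul_mem c⁻¹ hw
    rwa [smul_smul, inv_mul_cancel₀ hc, one_smul] at h2
  · obtain ⟨f, hf, hf'⟩ := Submodule.exists_dual_map_eq_bot_of_notMem hv inferInstance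
    have hfv : f v = 0 := by
      have h1 : f v ∈ (Submodule.span K {v}).map f :=
        ⟨v, Submodule.mem_span_singleton_self v, rfl⟩
      rw [hf', Submodule.mem_bot] at h1
      exact h1
    have h1 := hU ((f.smulRight v : Module.End K W) * (f.smulRight w : Module.End K W) -
      (f.smulRight w : Module.End K W) * (f.smulRight v : Module.End K W)) (by
      rw [mem_slw, map_sub, LinearMap.trace_mul_comm, sub_self]) w hw
    rw [LinearMap.sub_apply, Module.End.mul_apply, Module.End.mul_apply,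
      LinearMap.smulRight_apply, LinearMap.smulRight_apply, LinearMap.smulRight_apply,
      LinearMap.smulRight_apply, map_smul, map_smul, hfv, smul_zero, zero_smul, sub_zero,
      smul_eq_mul] at h1
    have h2 := U.smul_mem (f w * f w)⁻¹ h1
    rwa [smul_smul, inv_mul_cancel₀ (mul_ne_zero hf hf), one_smul] at h2

/-- A rank one idempotent. -/
lemma exists_rank_one [FiniteDimensional K W] [Nontrivial W] :
    ∃ q : Module.End K W, q * q = q ∧ rk q = 1 := by
  obtain ⟨v, hv⟩ := exists_ne (0 : W)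
  obtain ⟨f, hf⟩ : ∃ f : Module.Dual K W, f v ≠ 0 := by
    by_contra hcon
    push Not at hcon
    exact hv ((Module.forall_dual_apply_eq_zero_iff K v).mp hcon)
  refine ⟨(f.smulRight ((f v)⁻¹ • v) : Module.End K W), ?_, ?_⟩
  · ext w
    rw [Module.End.mul_apply, LinearMap.smulRight_apply, LinearMap.smulRight_apply, map_smul,
      map_smul, smul_eq_mul, smul_eq_mul, inv_mul_cancel₀ hf, mul_one]
  · have hr : LinearMap.range (f.smulRight ((f v)⁻¹ • v) : Module.End K W) =
        Submodule.span K {v} := by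
      apply le_antisymm
      · rintro _ ⟨w, rfl⟩
        rw [LinearMap.smulRight_apply]
        exact Submodule.smul_mem _ _ (Submodule.smul_mem _ _
          (Submodule.mem_span_singleton_self v))
      · rw [Submodule.span_singleton_le_iff_mem]
        exact ⟨v, by rw [LinearMap.smulRight_apply, smul_smul, mul_inv_cancel₀ hf, one_smul]⟩
    unfold rk
    rw [hr, finrank_span_singleton hv]

end sl

section map
variable {K : Type*} [Field K] {W₁ W₂ W₃ : Type*} [AddCommGroup W₁] [Module K W₁]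
  [AddCommGroup W₂] [Module K W₂] [AddCommGroup W₃] [Module K W₃]
  {L : Submodule K (Module.End K W₁ × Module.End K W₂)}

/-- Change of the second factor. -/
lemma mapr (hL : Lk L) (ψ : Module.End K W₂ →ₗ[K] Module.End K W₃) (hψ : ∀ x, ψ x = 0 → x = 0)
    (hbr : ∀ x y, ψ (x * y - y * x) = ψ x * ψ y - ψ y * ψ x) :
    Lk (L.map (LinearMap.prodMap LinearMap.id ψ)) := by
  refine ⟨?_, ?_, ?_, ?_, ?_⟩
  · rintro _ ⟨x, hx, rfl⟩ _ ⟨y, hy, rfl⟩
    refine ⟨x * y - y * x, hL.br x hx y hy, ?_⟩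
    exact Prod.ext rfl (hbr x.2 y.2)
  · rintro _ ⟨x, hx, rfl⟩ h
    have h1 : x.2 = 0 := hL.k1 x hx h
    change ψ x.2 = 0
    rw [h1, map_zero]
  · rintro _ ⟨x, hx, rfl⟩ h
    exact hL.k2 x hx (hψ x.2 h)
  · intro M hM hI
    have h1 : M = (L ⊓ M.comap (LinearMap.prodMap LinearMap.id ψ)).map
        (LinearMap.prodMap LinearMap.id ψ) := by
      apply le_antisymm
      · intro y hy
        obtain ⟨x, hx, rfl⟩ := hM hy
        exact ⟨x, ⟨hx, hy⟩, rfl⟩
      · rintro _ ⟨x, ⟨_, hx⟩, rfl⟩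
        exact hx
    rcases hL.smp (L ⊓ M.comap (LinearMap.prodMap LinearMap.id ψ)) inf_le_left (by
      rintro x hx y ⟨hy, hy'⟩
      refine ⟨hL.br x hx y hy, ?_⟩
      have h2 := hI _ ⟨x, hx, rfl⟩ _ hy'
      have h3 : (LinearMap.prodMap LinearMap.id ψ) (x * y - y * x) =
          (LinearMap.prodMap LinearMap.id ψ) x * (LinearMap.prodMap LinearMap.id ψ) y -
          (LinearMap.prodMap LinearMap.id ψ) y * (LinearMap.prodMap LinearMap.id ψ) x :=
        Prod.ext rfl (hbr x.2 y.2)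
      change (LinearMap.prodMap LinearMap.id ψ) (x * y - y * x) ∈ M
      rw [h3]
      exact h2) with h | h
    · left; rw [h1, h, Submodule.map_bot]
    · right; rw [h1, h]
  · obtain ⟨x, hx, hx0⟩ := hL.ne
    refine ⟨_, ⟨x, hx, rfl⟩, ?_⟩
    intro h
    have e1 : x.1 = 0 := congrArg Prod.fst h
    exact hx0 (Prod.ext e1 (hL.k1 x hx e1))

end map

section uu
variable {K : Type*} [Field K] [IsAlgClosed K] [CharZero K] {W₁ W₂ : Type*} [AddCommGroup W₁]
  [Module K W₁] [FiniteDimensional K W₁] [AddCommGroup W₂] [Module K W₂]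
  [FiniteDimensional K W₂] {L : Submodule K (Module.End K W₁ × Module.End K W₂)}

/-- The case of rank one. -/
theorem uu_one (hL : Lk L) (h1 : On1 L (slw K W₁)) (h2 : On2 L (slw K W₂))
    (hd : finrank K W₁ = finrank K W₂) (hn : 2 ≤ finrank K W₁)
    {x : Module.End K W₁ × Module.End K W₂} (hx : x ∈ L) {q₁ : Module.End K W₁}
    {q₂ : Module.End K W₂} {c₁ c₂ : K} (hq1 : q₁ * q₁ = q₁) (hq2 : q₂ * q₂ = q₂)
    (hr1 : rk q₁ = 1) (hr2 : rk q₂ = 1) (hx1 : x.1 = q₁ - c₁ • 1) (hx2 : x.2 = q₂ - c₂ • 1) :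
    ∃ f : W₁ →ₗ[K] W₂, f ≠ 0 ∧ ∀ x ∈ L, ∀ v, f (x.1 v) = x.2 (f v) := by
  have t1 : ∀ z ∈ L, LinearMap.trace K W₁ z.1 = 0 := fun z hz => LK.mem1 h1 hz
  have t2 : ∀ z ∈ L, LinearMap.trace K W₂ z.2 = 0 := fun z hz => LK.mem2 h2 hz
  have hn0 : (finrank K W₁ : K) ≠ 0 := by
    rw [Nat.cast_ne_zero]; omega
  have hc1 : c₁ * finrank K W₁ = 1 := by
    have h := t1 x hx
    rw [hx1, map_sub, map_smul, LinearMap.trace_one, LK.trace_idem hq1, hr1, Nat.cast_one,
      smul_eq_mul] at h
    linear_combination -h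
  have hc2 : c₂ * finrank K W₁ = 1 := by
    have h := t2 x hx
    rw [hx2, map_sub, map_smul, LinearMap.trace_one, LK.trace_idem hq2, hr2, Nat.cast_one,
      smul_eq_mul, ← hd] at h
    linear_combination -h
  have hcc : c₁ = c₂ := mul_right_cancel₀ hn0 (hc1.trans hc2.symm)
  have hc1' : 1 - c₁ ≠ 0 := by
    intro h
    have h3 : c₁ = 1 := by linear_combination -h
    rw [h3, one_mul] at hc1
    have h4 : finrank K W₁ = 1 := by exact_mod_cast hc1
    omega
  have a1 : ∀ z ∈ L, LinearMap.trace K W₁ (x.1 * z.1) = LinearMap.trace K W₁ (q₁ * z.1) := by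
    intro z hz
    rw [hx1, sub_mul, smul_mul_assoc, one_mul, map_sub, map_smul, t1 z hz, smul_zero, sub_zero]
  have a2 : ∀ z ∈ L, LinearMap.trace K W₂ (x.2 * z.2) = LinearMap.trace K W₂ (q₂ * z.2) := by
    intro z hz
    rw [hx2, sub_mul, smul_mul_assoc, one_mul, map_sub, map_smul, t2 z hz, smul_zero, sub_zero]
  have b1 : LinearMap.trace K W₁ (x.1 * x.1) = 1 - c₁ := by
    rw [a1 x hx, hx1, mul_sub, hq1, mul_smul_comm, mul_one, map_sub, map_smul,
      LK.trace_idem hq1, hr1, Nat.cast_one, smul_eq_mul, mul_one]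
  have b2 : LinearMap.trace K W₂ (x.2 * x.2) = 1 - c₂ := by
    rw [a2 x hx, hx2, mul_sub, hq2, mul_smul_comm, mul_one, map_sub, map_smul,
      LK.trace_idem hq2, hr2, Nat.cast_one, smul_eq_mul, mul_one]
  obtain ⟨κ, hκ⟩ := LK.trf hL hx (by rw [b1]; exact hc1')
  have hκ1 : κ = 1 := by
    have h := hκ x hx x hx
    rw [b1, b2, ← hcc] at h
    have h' : (κ - 1) * (1 - c₁) = 0 := by linear_combination -h
    rcases mul_eq_zero.mp h' with h | h
    · linear_combination h
    · exact absurd h hc1'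
  have hb1 : ∀ a : Module.End K W₁, x.1 * a - a * x.1 = q₁ * a - a * q₁ := by
    intro a
    rw [hx1, sub_mul, mul_sub, smul_mul_assoc, mul_smul_comm, one_mul, mul_one]; abel
  have hb2 : ∀ a : Module.End K W₂, x.2 * a - a * x.2 = q₂ * a - a * q₂ := by
    intro a
    rw [hx2, sub_mul, mul_sub, smul_mul_assoc, mul_smul_comm, one_mul, mul_one]; abel
  have hb : ∀ a : Module.End K W₁ × Module.End K W₂, x * a - a * x =
      (q₁, q₂) * a - a * (q₁, q₂) := fun a => Prod.ext (hb1 a.1) (hb2 a.2)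
  have hqq : ((q₁, q₂) : Module.End K W₁ × Module.End K W₂) * (q₁, q₂) = (q₁, q₂) :=
    Prod.ext hq1 hq2
  refine LK.exists_tw (h := (q₁, q₂)) (q := (q₁, q₂))
    (fun U hU => sl_irr (fun y hy v hv => ?_)) (fun U hU => sl_irr (fun y hy v hv => ?_)) hL.br
    ?_ ?_ ?_ ?_ ?_ ?_ ?_
  · obtain ⟨z, hz, rfl⟩ := LK.ex1 h1 hy
    exact hU z hz v hv
  · obtain ⟨z, hz, rfl⟩ := LK.ex2 h2 hy
    exact hU z hz v hv
  · rw [hqq, hqq]
  · intro z hz
    rw [← hb]
    exact hL.br x hx z hz
  · intro z _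
    have e1 := LK.idem_cube hq1 0 z.1
    have e2 := LK.idem_cube hq2 0 z.2
    rw [zero_smul, sub_zero] at e1 e2
    exact Prod.ext e1 e2
  · rw [hqq, ← two_smul K, smul_smul, inv_mul_cancel₀ two_ne_zero, one_smul]
  · intro h
    change q₁ = 0 at h
    rw [h, rk_eq_zero.mpr rfl] at hr1
    exact zero_ne_one hr1
  · intro h
    change q₂ = 0 at h
    rw [h, rk_eq_zero.mpr rfl] at hr2
    exact zero_ne_one hr2
  · intro z hz _
    refine ⟨LinearMap.trace K W₁ (q₁ * z.1), Prod.ext (LK.sandwich hq1 hr1 z.1) ?_⟩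
    have h := hκ x hx z hz
    rw [hκ1, one_mul, a1 z hz, a2 z hz] at h
    rw [← h]
    exact LK.sandwich hq2 hr2 z.2

end uu

end P3

section uu
variable {K : Type*} [Field K] [IsAlgClosed K] [CharZero K] {W₁ W₂ : Type*} [AddCommGroup W₁]
  [Module K W₁] [FiniteDimensional K W₁] [AddCommGroup W₂] [Module K W₂]
  [FiniteDimensional K W₂] {L : Submodule K (Module.End K W₁ × Module.End K W₂)}

theorem pair_UU (hL : Lk L) (h1 : On1 L (slw K W₁)) (h2 : On2 L (slw K W₂)) :
    (∃ f : W₁ →ₗ[K] W₂, f ≠ 0 ∧ ∀ x ∈ L, ∀ v, f (x.1 v) = x.2 (f v)) ∨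
    (∃ c : W₁ →ₗ[K] W₂ →ₗ[K] K, c ≠ 0 ∧ ∀ x ∈ L, ∀ v w, c (x.1 v) w = - c v (x.2 w)) := by
  obtain ⟨y, hy, hy0⟩ := hL.ne
  have hy1 : y.1 ≠ 0 := fun h => hy0 (Prod.ext h (hL.k1 y hy h))
  have hy2 : y.2 ≠ 0 := fun h => hy0 (Prod.ext (hL.k2 y hy h) h)
  have hN1 : Nontrivial W₁ := by
    by_contra hcon
    rw [not_nontrivial_iff_subsingleton] at hcon
    exact hy1 (LinearMap.ext fun v => Subsingleton.elim _ _)
  have hN2 : Nontrivial W₂ := by
    by_contra hcon
    rw [not_nontrivial_iff_subsingleton] at hcon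
    exact hy2 (LinearMap.ext fun v => Subsingleton.elim _ _)
  have d1 := dim_sl (K := K) (W := W₁)
  have d2 := dim_sl (K := K) (W := W₂)
  have hd : finrank K W₁ = finrank K W₂ := by
    rw [LK.finrank_eq hL h1 h2, d2] at d1
    exact (Nat.mul_self_inj.mp d1).symm
  have hn : 2 ≤ finrank K W₁ := by
    by_contra hcon
    have h3 : 0 < finrank K W₁ := finrank_pos
    have h4 : finrank K W₁ = 1 := by omega
    rw [h4] at d1
    have h5 : finrank K (slw K W₁) = 0 := by omega
    rw [Submodule.finrank_eq_zero] at h5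
    have h6 := LK.mem1 h1 hy
    rw [h5, Submodule.mem_bot] at h6
    exact hy1 h6
  obtain ⟨q, hq, hr⟩ := P3.exists_rank_one (K := K) (W := W₁)
  have hq0 : q ≠ 0 := by
    rw [← rk_pos, hr]; exact one_pos
  have hq1 : q ≠ 1 := by
    rintro rfl
    rw [P1.rk_one] at hr
    omega
  obtain ⟨x, hx, hx1⟩ := LK.ex1 h1 (z := q - (finrank K W₁ : K)⁻¹ • 1) (by
    rw [P3.mem_slw, map_sub, map_smul, LinearMap.trace_one, LK.trace_idem hq, hr, Nat.cast_one,
      smul_eq_mul, inv_mul_cancel₀ (by rw [Nat.cast_ne_zero]; omega), sub_self])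
  have hx0 : x.2 ≠ 0 := by
    intro h
    have h3 := hL.k2 x hx h
    rw [hx1, sub_eq_zero] at h3
    rw [h3, rk_smul (inv_ne_zero (by rw [Nat.cast_ne_zero]; omega)), P1.rk_one] at hr
    omega
  have hg : Grd (slw K W₂) x.2 := LK.grd hL h2 hx fun z _ => by
    rw [hx1]; exact LK.idem_cube hq _ z.1
  obtain ⟨P, c, hP, hP0, hP1, hxP⟩ := grd_sl (LK.mem2 h2 hx) hx0 hg
  have hgo := LK.gone_eq hL h1 h2 hx
  rw [hx1, hxP, dim_sl_one hq hq0 hq1, dim_sl_one hP hP0 hP1, hr, one_mul, ← hd] at hgo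
  have hrP : rk P ≤ finrank K W₁ := by
    rw [hd]; exact Submodule.finrank_le _
  have hcase : rk P = 1 ∨ rk P + 1 = finrank K W₁ := by
    obtain ⟨k, hk⟩ := Nat.exists_eq_add_of_le hrP
    rw [hk, Nat.add_sub_cancel_left] at hgo
    rw [hk] at hn ⊢
    generalize rk P = r at *
    rcases r with _ | r
    · omega
    rcases k with _ | k
    · omega
    have h3 : r * k = 0 := by
      have : (r + 1) * (k + 1) = r * k + (r + k + 1) := by ring
      omega
    rcases Nat.mul_eq_zero.mp h3 with h | h <;> omega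
  rcases hcase with hP' | hP'
  · left
    exact P3.uu_one hL h1 h2 hd hn hx hq hP hr hP' hx1 hxP
  · right
    obtain ⟨β, hβ⟩ := P3.exists_form K W₂
    set ψ := -(P1.dag hβ) with hψ
    have hψi : ∀ x, ψ x = 0 → x = 0 := by
      intro x h
      exact P3.dag_inj hβ (neg_eq_zero.mp h)
    have hψs : ∀ w, ∃ x, ψ x = w := by
      intro w
      obtain ⟨x, hx⟩ := P3.dag_surj hβ (-w)
      exact ⟨x, by rw [hψ, LinearMap.neg_apply, hx, neg_neg]⟩
    have hψb : ∀ a b, ψ (a * b - b * a) = ψ a * ψ b - ψ b * ψ a := by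
      intro a b
      rw [hψ, LinearMap.neg_apply, LinearMap.neg_apply, LinearMap.neg_apply, map_sub,
        P3.dag_mul, P3.dag_mul]
      noncomm_ring
    have hψt : ∀ a, LinearMap.trace K W₂ (ψ a) = - LinearMap.trace K W₂ a := by
      intro a
      rw [hψ, LinearMap.neg_apply, map_neg, P3.dag_trace]
    have hL' := P3.mapr hL ψ hψi hψb
    have h1' : On1 (L.map (LinearMap.prodMap LinearMap.id ψ)) (slw K W₁) := by
      unfold On1
      rw [← Submodule.map_comp]
      exact h1
    have h2' : On2 (L.map (LinearMap.prodMap LinearMap.id ψ)) (slw K W₂) := by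
      unfold On2
      apply le_antisymm
      · rintro _ ⟨_, ⟨z, hz, rfl⟩, rfl⟩
        change LinearMap.trace K W₂ (ψ z.2) = 0
        rw [hψt, LK.mem2 h2 hz, neg_zero]
      · intro w hw
        obtain ⟨a, rfl⟩ := hψs w
        obtain ⟨z, hz, rfl⟩ := LK.ex2 h2 (z := a) (by
          rw [P3.mem_slw] at hw ⊢
          rw [hψt] at hw
          exact neg_eq_zero.mp hw)
        exact ⟨_, ⟨z, hz, rfl⟩, rfl⟩
    have hPt : P1.dag hβ P * P1.dag hβ P = P1.dag hβ P := by
      rw [← P3.dag_mul, hP]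
    obtain ⟨f, hf0, hf⟩ := P3.uu_one (x := (x.1, ψ x.2)) (q₁ := q)
      (q₂ := 1 - P1.dag hβ P) (c₁ := (finrank K W₁ : K)⁻¹) (c₂ := 1 - c) hL' h1' h2'
      hd hn ⟨x, hx, rfl⟩ hq
      (by
        rw [mul_sub, sub_mul, sub_mul, hPt]; simp)
      hr
      (by
        have h3 := P1.rk_compl hPt
        rw [P3.dag_rk] at h3
        omega)
      hx1
      (by
        change ψ x.2 = _
        rw [hxP, hψ, LinearMap.neg_apply, map_sub, map_smul, P3.dag_one]
        module)
    refine ⟨(LinearMap.BilinForm.toDual β hβ).toLinearMap ∘ₗ f, ?_, ?_⟩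
    · intro h
      apply hf0
      refine LinearMap.ext fun v => ?_
      have h3 := LinearMap.congr_fun h v
      rw [LinearMap.comp_apply, LinearEquiv.coe_coe, LinearMap.zero_apply,
        LinearEquiv.map_eq_zero_iff] at h3
      rw [h3, LinearMap.zero_apply]
    · intro z hz v w
      have h3 := hf _ ⟨z, hz, rfl⟩ v
      change β (f (z.1 v)) w = - β (f v) (z.2 w)
      change f (z.1 v) = ψ z.2 (f v) at h3
      rw [h3, hψ, LinearMap.neg_apply, LinearMap.neg_apply, map_neg, LinearMap.neg_apply,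
        P1.dag_apply]

end uu

end AV
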