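import Pool.Agent.Helper9.AV.LK

/-!
Linked Lie algebras of operators: intertwiners from rank one idempotents.
-/

set_option linter.unusedSectionVars false
set_option linter.unusedVariables false

open Module

namespace AV

open MTP

namespace LK

section rank
variable {K : Type*} [Field K] [CharZero K] {W : Type*} [AddCommGroup W] [Module K W]
  [FiniteDimensional K W]

lemma trace_idem {q : Module.End K W} (hq : q * q = q) : LinearMap.trace K W q = (rk q : K) :=
  (LinearMap.IsIdempotentElem.isProj_range q hq).trace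

lemma sandwich {q : Module.End K W} (hq : q * q = q) (hr : rk q = 1) (z : Module.End K W) :
    q * z * q = LinearMap.trace K W (q * z) • q := by
  obtain ⟨v, hv0, hv⟩ := finrank_eq_one_iff'.mp hr
  obtain ⟨t, ht⟩ := hv ⟨q (z v), ⟨z v, rfl⟩⟩
  have ht' : q (z v) = t • (v : W) := (congrArg Subtype.val ht).symm
  have h1 : q * z * q = t • q := by
    ext w
    obtain ⟨c, hc⟩ := hv ⟨q w, ⟨w, rfl⟩⟩
    have hc' : q w = c • (v : W) := (congrArg Subtype.val hc).symm
    rw [Module.End.mul_apply, Module.End.mul_apply, LinearMap.smul_apply, hc', map_smul,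
      map_smul, ht', smul_comm]
  have h2 := congrArg (LinearMap.trace K W) h1
  rw [map_smul, trace_idem hq, hr, Nat.cast_one, smul_eq_mul, mul_one, LinearMap.trace_mul_comm,
    ← mul_assoc, hq] at h2
  rw [h1, h2]

end rank

section graph
variable {K : Type*} [Field K] {W₁ W₂ : Type*} [AddCommGroup W₁] [Module K W₁]
  [AddCommGroup W₂] [Module K W₂]
  {L : Submodule K (Module.End K W₁ × Module.End K W₂)}

/-- The graph lemma. -/
theorem graph (irr1 : ∀ U : Submodule K W₁, (∀ x ∈ L, ∀ v ∈ U, x.1 v ∈ U) → U = ⊥ ∨ U = ⊤)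
    (irr2 : ∀ U : Submodule K W₂, (∀ x ∈ L, ∀ v ∈ U, x.2 v ∈ U) → U = ⊥ ∨ U = ⊤)
    {q : Module.End K W₁ × Module.End K W₂} (hq1 : q.1 ≠ 0) (hq2 : q.2 ≠ 0)
    (hw : ∀ n, ∀ w ∈ L ^ n, ∃ c : K, q * w * q = c • q) :
    ∃ f : W₁ →ₗ[K] W₂, f ≠ 0 ∧ ∀ x ∈ L, ∀ v, f (x.1 v) = x.2 (f v) := by
  obtain ⟨u', hu'⟩ : ∃ u', q.1 u' ≠ 0 := by
    by_contra hcon
    push Not at hcon
    exact hq1 (LinearMap.ext hcon)
  obtain ⟨w', hw'⟩ : ∃ w', q.2 w' ≠ 0 := by
    by_contra hcon
    push Not at hcon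
    exact hq2 (LinearMap.ext hcon)
  let Gr : Submodule K (W₁ × W₂) :=
    { carrier := {v | ∀ n, ∀ w ∈ L ^ n, ∃ c : K, q.1 (w.1 v.1) = c • q.1 u' ∧
        q.2 (w.2 v.2) = c • q.2 w'}
      add_mem' := by
        intro a b ha hb n w hw
        obtain ⟨c1, h1, h1'⟩ := ha n w hw
        obtain ⟨c2, h2, h2'⟩ := hb n w hw
        exact ⟨c1 + c2, by rw [Prod.fst_add, map_add, map_add, h1, h2, add_smul],
          by rw [Prod.snd_add, map_add, map_add, h1', h2', add_smul]⟩
      zero_mem' := by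
        intro n w _
        exact ⟨0, by simp, by simp⟩
      smul_mem' := by
        intro c a ha n w hw
        obtain ⟨c1, h1, h1'⟩ := ha n w hw
        exact ⟨c * c1, by rw [Prod.smul_fst, map_smul, map_smul, h1, smul_smul],
          by rw [Prod.smul_snd, map_smul, map_smul, h1', smul_smul]⟩ }
  have hGrs : ∀ z ∈ L, ∀ v ∈ Gr, ((z.1 v.1, z.2 v.2) : W₁ × W₂) ∈ Gr := by
    intro z hz v hv n w hw
    obtain ⟨c, h1, h2⟩ := hv (n + 1) (w * z) (by
      rw [pow_succ]; exact Submodule.mul_mem_mul hw hz)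
    exact ⟨c, h1, h2⟩
  have hg0mem : ((q.1 u', q.2 w') : W₁ × W₂) ∈ Gr := by
    intro n w hwn
    obtain ⟨c, hc⟩ := hw n w hwn
    refine ⟨c, ?_, ?_⟩
    · exact LinearMap.congr_fun (congrArg Prod.fst hc) u'
    · exact LinearMap.congr_fun (congrArg Prod.snd hc) w'
  have hone : ∀ v ∈ Gr, ∃ c : K, q.1 v.1 = c • q.1 u' ∧ q.2 v.2 = c • q.2 w' := by
    intro v hv
    obtain ⟨c, h1, h2⟩ := hv 0 1 (by rw [pow_zero]; exact Submodule.one_le.mp le_rfl)
    exact ⟨c, h1, h2⟩
  have hk1 : ∀ v, ((v, 0) : W₁ × W₂) ∈ Gr → v = 0 := by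
    let U : Submodule K W₁ := Gr.comap (LinearMap.inl K W₁ W₂)
    have hU : U = ⊥ ∨ U = ⊤ := by
      apply irr1
      intro z hz w hw
      have := hGrs z hz _ hw
      simpa [U] using this
    rcases hU with hU | hU
    · intro v hv
      have : v ∈ U := hv
      rw [hU] at this
      exact this
    · exfalso
      have h1 : (u' : W₁) ∈ U := by rw [hU]; trivial
      obtain ⟨c, h3, h2⟩ := hone _ h1
      simp only [LinearMap.coe_inl, map_zero] at h2 h3
      rcases smul_eq_zero.mp h2.symm with h | h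
      · rw [h, zero_smul] at h3; exact hu' h3
      · exact absurd h hw'
  have hk2 : ∀ v, ((0, v) : W₁ × W₂) ∈ Gr → v = 0 := by
    let U : Submodule K W₂ := Gr.comap (LinearMap.inr K W₁ W₂)
    have hU : U = ⊥ ∨ U = ⊤ := by
      apply irr2
      intro z hz w hw
      have := hGrs z hz _ hw
      simpa [U] using this
    rcases hU with hU | hU
    · intro v hv
      have : v ∈ U := hv
      rw [hU] at this
      exact this
    · exfalso
      have h1 : (w' : W₂) ∈ U := by rw [hU]; trivial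
      obtain ⟨c, h3, h2⟩ := hone _ h1
      simp only [LinearMap.coe_inr, map_zero] at h2 h3
      rcases smul_eq_zero.mp h3.symm with h | h
      · rw [h, zero_smul] at h2; exact hw' h2
      · exact absurd h hu'
  let P1 : Gr →ₗ[K] W₁ := (LinearMap.fst K W₁ W₂) ∘ₗ Gr.subtype
  let P2 : Gr →ₗ[K] W₂ := (LinearMap.snd K W₁ W₂) ∘ₗ Gr.subtype
  have hP1i : Function.Injective P1 := by
    rw [injective_iff_map_eq_zero]
    rintro ⟨⟨a, b⟩, hab⟩ h
    have ha : a = 0 := h
    subst ha
    have hb := hk2 b hab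
    subst hb
    rfl
  have hP1s : Function.Surjective P1 := by
    rw [← LinearMap.range_eq_top]
    rcases irr1 (LinearMap.range P1) (by
      rintro z hz _ ⟨w, rfl⟩
      exact ⟨⟨(z.1 (w : W₁ × W₂).1, z.2 (w : W₁ × W₂).2), hGrs z hz _ w.2⟩, rfl⟩) with h | h
    · exfalso
      have h1 : (q.1 u') ∈ LinearMap.range P1 := ⟨⟨(q.1 u', q.2 w'), hg0mem⟩, rfl⟩
      rw [h, Submodule.mem_bot] at h1
      exact hu' h1
    · exact h
  let e := LinearEquiv.ofBijective P1 ⟨hP1i, hP1s⟩
  refine ⟨P2 ∘ₗ e.symm.toLinearMap, ?_, ?_⟩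
  · intro h
    have h1 : e.symm (q.1 u') = ⟨(q.1 u', q.2 w'), hg0mem⟩ := by
      rw [LinearEquiv.symm_apply_eq]; rfl
    have h2 := LinearMap.congr_fun h (q.1 u')
    rw [LinearMap.comp_apply, LinearEquiv.coe_coe, h1] at h2
    exact hw' h2
  · intro z hz v
    obtain ⟨w, hw⟩ := hP1s v
    have e1 : e.symm v = w := by
      rw [LinearEquiv.symm_apply_eq]; exact hw.symm
    have e2 : e.symm (z.1 v) =
        ⟨(z.1 (w : W₁ × W₂).1, z.2 (w : W₁ × W₂).2), hGrs z hz _ w.2⟩ := by
      rw [LinearEquiv.symm_apply_eq]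
      change z.1 v = z.1 (w : W₁ × W₂).1
      have : v = (w : W₁ × W₂).1 := hw.symm
      rw [this]
    change P2 (e.symm (z.1 v)) = z.2 (P2 (e.symm v))
    rw [e1, e2]
    rfl

/-- An intertwiner from a grading with rank one corners. -/
theorem exists_tw [CharZero K]
    (irr1 : ∀ U : Submodule K W₁, (∀ x ∈ L, ∀ v ∈ U, x.1 v ∈ U) → U = ⊥ ∨ U = ⊤)
    (irr2 : ∀ U : Submodule K W₂, (∀ x ∈ L, ∀ v ∈ U, x.2 v ∈ U) → U = ⊥ ∨ U = ⊤)
    (hbr : ∀ x ∈ L, ∀ y ∈ L, x * y - y * x ∈ L)
    {h : Module.End K W₁ × Module.End K W₂} (hh : h * h * h = h)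
    (hL : ∀ z ∈ L, h * z - z * h ∈ L)
    (h3 : ∀ z ∈ L, h * (h * (h * z - z * h) - (h * z - z * h) * h) -
      (h * (h * z - z * h) - (h * z - z * h) * h) * h = h * z - z * h)
    {q : Module.End K W₁ × Module.End K W₂} (hq : q = (2 : K)⁻¹ • (h * h + h))
    (hq1 : q.1 ≠ 0) (hq2 : q.2 ≠ 0)
    (hc : ∀ z ∈ L, h * z = z * h → ∃ c : K, q * z * q = c • q) :
    ∃ f : W₁ →ₗ[K] W₂, f ≠ 0 ∧ ∀ x ∈ L, ∀ v, f (x.1 v) = x.2 (f v) := by
  obtain ⟨hqq, hz⟩ := grad hh hL h3 hq hc
  exact graph irr1 irr2 hq1 hq2 fun n w hw => word hbr hqq hz n hw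

end graph

section tracef
variable {K : Type*} [Field K] [IsAlgClosed K] {W₁ W₂ : Type*} [AddCommGroup W₁] [Module K W₁]
  [AddCommGroup W₂] [Module K W₂] [FiniteDimensional K W₁] [FiniteDimensional K W₂]
  {L : Submodule K (Module.End K W₁ × Module.End K W₂)}

lemma trace_ass {W : Type*} [AddCommGroup W] [Module K W] (z x y : Module.End K W) :
    LinearMap.trace K W ((z * x - x * z) * y) = LinearMap.trace K W (x * (y * z - z * y)) := by
  have e1 : (z * x - x * z) * y = z * (x * y) - x * (z * y) := by noncomm_ring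
  rw [e1, mul_sub, map_sub, map_sub, LinearMap.trace_mul_comm, mul_assoc]

/-- The trace forms are proportional. -/
theorem trf (hL : Lk L) {x0 : Module.End K W₁ × Module.End K W₂} (hx0 : x0 ∈ L)
    (h0 : LinearMap.trace K W₁ (x0.1 * x0.1) ≠ 0) :
    ∃ κ : K, ∀ x ∈ L, ∀ y ∈ L, LinearMap.trace K W₂ (x.2 * y.2) =
      κ * LinearMap.trace K W₁ (x.1 * y.1) := by
  let Φ1 : L →ₗ[K] Module.Dual K L :=
    { toFun := fun a =>
        { toFun := fun b => LinearMap.trace K W₁ ((a : Module.End K W₁ × Module.End K W₂).1 * (b : Module.End K W₁ × Module.End K W₂).1)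
          map_add' := by intro b c; simp [mul_add]
          map_smul' := by intro c b; simp }
      map_add' := by intro a b; ext c; simp [add_mul]
      map_smul' := by intro c a; ext b; simp }
  let Φ2 : L →ₗ[K] Module.Dual K L :=
    { toFun := fun a =>
        { toFun := fun b => LinearMap.trace K W₂ ((a : Module.End K W₁ × Module.End K W₂).2 * (b : Module.End K W₁ × Module.End K W₂).2)
          map_add' := by intro b c; simp [mul_add]
          map_smul' := by intro c b; simp }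
      map_add' := by intro a b; ext c; simp [add_mul]
      map_smul' := by intro c a; ext b; simp }
  have key : ∀ s t : K, ∀ a : L, a ≠ 0 → s • Φ1 a = t • Φ2 a → s • Φ1 = t • Φ2 := by
    intro s t a ha hst
    let I : Submodule K (Module.End K W₁ × Module.End K W₂) :=
      (LinearMap.ker (s • Φ1 - t • Φ2)).map L.subtype
    have hI : I ≤ L := by
      rintro _ ⟨x, _, rfl⟩
      exact x.2
    rcases hL.smp I hI (by
      rintro z hz _ ⟨x, hx, rfl⟩
      refine ⟨⟨z * x - x * z, hL.br z hz x x.2⟩, ?_, rfl⟩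
      rw [SetLike.mem_coe, LinearMap.mem_ker] at hx ⊢
      ext y
      have h1 := LinearMap.congr_fun hx ⟨y * z - z * y, hL.br _ y.2 z hz⟩
      change s * LinearMap.trace K W₁ ((x : Module.End K W₁ × Module.End K W₂).1 * ((y : Module.End K W₁ × Module.End K W₂).1 * z.1 - z.1 * (y : Module.End K W₁ × Module.End K W₂).1))
        - t * LinearMap.trace K W₂ ((x : Module.End K W₁ × Module.End K W₂).2 * ((y : Module.End K W₁ × Module.End K W₂).2 * z.2 - z.2 * (y : Module.End K W₁ × Module.End K W₂).2))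
        = 0 at h1
      change s * LinearMap.trace K W₁ ((z.1 * (x : Module.End K W₁ × Module.End K W₂).1 - (x : Module.End K W₁ × Module.End K W₂).1 * z.1) * (y : Module.End K W₁ × Module.End K W₂).1)
        - t * LinearMap.trace K W₂ ((z.2 * (x : Module.End K W₁ × Module.End K W₂).2 - (x : Module.End K W₁ × Module.End K W₂).2 * z.2) * (y : Module.End K W₁ × Module.End K W₂).2)
        = 0
      rw [trace_ass, trace_ass]
      exact h1) with h | h
    · exfalso
      apply ha
      have h1 : (a : Module.End K W₁ × Module.End K W₂) ∈ I := by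
        refine ⟨a, ?_, rfl⟩
        rw [SetLike.mem_coe, LinearMap.mem_ker, LinearMap.sub_apply, LinearMap.smul_apply,
          LinearMap.smul_apply, hst, sub_self]
      rw [h, Submodule.mem_bot] at h1
      exact Subtype.ext h1
    · rw [← sub_eq_zero]
      refine LinearMap.ext fun x => ?_
      have h1 : (x : Module.End K W₁ × Module.End K W₂) ∈ I := by rw [h]; exact x.2
      obtain ⟨y, hy, hyx⟩ := h1
      have : y = x := Subtype.ext hyx
      rw [this] at hy
      exact hy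
  have hinj : Function.Injective Φ1 := by
    rw [injective_iff_map_eq_zero]
    intro a ha
    by_contra ha0
    have h1 := key 1 0 a ha0 (by rw [ha, smul_zero, zero_smul])
    have h2 := LinearMap.congr_fun (LinearMap.congr_fun h1 ⟨x0, hx0⟩) ⟨x0, hx0⟩
    rw [one_smul, zero_smul] at h2
    exact h0 h2
  have hfin : finrank K L = finrank K (Module.Dual K L) := Subspace.dual_finrank_eq.symm
  let e := LinearEquiv.ofInjectiveOfFinrankEq Φ1 hinj hfin
  have he : ∀ a, e a = Φ1 a := fun a => rfl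
  obtain ⟨y0, hy0, hy0'⟩ := hL.ne
  have : Nontrivial L := ⟨⟨⟨y0, hy0⟩, 0, fun h => hy0' (congrArg Subtype.val h)⟩⟩
  obtain ⟨κ, hκ⟩ := Module.End.exists_eigenvalue (e.symm.toLinearMap ∘ₗ Φ2)
  obtain ⟨a, ha⟩ := hκ.exists_hasEigenvector
  have ha1 := ha.apply_eq_smul
  have ha2 : Φ2 a = κ • Φ1 a := by
    rw [LinearMap.comp_apply, LinearEquiv.coe_coe, LinearEquiv.symm_apply_eq, map_smul, he] at ha1
    exact ha1
  have h1 := key κ 1 a ha.2 (by rw [ha2, one_smul])
  refine ⟨κ, ?_⟩
  intro x hx y hy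
  have h2 := LinearMap.congr_fun (LinearMap.congr_fun h1 ⟨x, hx⟩) ⟨y, hy⟩
  rw [one_smul] at h2
  exact h2.symm

end tracef

end LK

end AV
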